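import Mathlib

open Complex Filter Topology Set Finset

namespace H855R2.LH

/-- division of a holomorphic function by the factors of finitely many zeros -/
theorem factor_zeros {U : Set ℂ} (hU : IsOpen U) (F : Finset ℂ) :
    (F : Set ℂ) ⊆ U → ∀ f : ℂ → ℂ,
    DifferentiableOn ℂ f U → (∀ a ∈ F, f a = 0) →
    ∃ g : ℂ → ℂ, DifferentiableOn ℂ g U ∧ ∀ z ∈ U, f z = g z * ∏ a ∈ F, (z - a) := by
  classical
  induction F using Finset.induction_on with
  | empty =>
    intro _ f hf _
    exact ⟨f, hf, fun z _ => by simp⟩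
  | insert a F ha ih =>
    intro hF f hf h0
    have haU : a ∈ U := hF (by simp)
    have hFU : (F : Set ℂ) ⊆ U := fun x hx => hF (by simp [Finset.mem_coe.1 hx])
    have hd : DifferentiableOn ℂ (dslope f a) U :=
      (Complex.differentiableOn_dslope (hU.mem_nhds haU)).2 hf
    have hfa : f a = 0 := h0 a (by simp)
    have hds : ∀ z, f z = (z - a) * dslope f a z := by
      intro z
      have := sub_smul_dslope f a z
      rw [hfa, sub_zero, smul_eq_mul] at this
      exact this.symm
    obtain ⟨g, hg, hg2⟩ := ih hFU (dslope f a) hd (by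
      intro b hb
      have hba : b ≠ a := fun h => ha (h ▸ hb)
      have h1 := hds b
      rw [h0 b (by simp [hb])] at h1
      have h2 : b - a ≠ 0 := sub_ne_zero.2 hba
      rcases mul_eq_zero.1 h1.symm with h | h
      · exact absurd h h2
      · exact h)
    refine ⟨g, hg, fun z hz => ?_⟩
    rw [hds z, hg2 z hz, Finset.prod_insert ha]
    ring

/-- quantitative Lagrange interpolation + maximum principle -/
theorem interp_bound {U W : Set ℂ} (hU : IsOpen U) (hW : IsOpen W) (hWb : Bornology.IsBounded W)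
    (hWU : closure W ⊆ U) (F : Finset ℂ) (hF : (F : Set ℂ) ⊆ W) {f : ℂ → ℂ}
    (hf : DifferentiableOn ℂ f U) {x : ℂ} (hx : x ∈ W) {A V D B R κ : ℝ}
    (hV0 : 0 < V) (hD0 : 0 < D) (hκ : 0 < κ) (hR0 : 0 ≤ R) (hB0 : 0 ≤ B) (hA0 : 0 ≤ A)
    (hA : ∀ z ∈ frontier W, ‖f z‖ ≤ A) (hV : ∀ z ∈ frontier W, V ≤ ∏ a ∈ F, ‖z - a‖)
    (hB : ∀ a ∈ F, ‖f a‖ ≤ B) (hD : ∀ a ∈ F, D ≤ ∏ b ∈ F.erase a, ‖a - b‖)
    (hκ' : ∀ a ∈ F, ∀ z ∈ frontier W, κ ≤ ‖z - a‖)
    (hR : ∏ a ∈ F, ‖x - a‖ ≤ R) (hR' : ∀ a ∈ F, ∏ b ∈ F.erase a, ‖x - b‖ ≤ R) :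
    ‖f x‖ ≤ A * R / V + F.card * B * (R / D) * (1 + 1 / κ) := by
  classical
  -- interpolation polynomial
  set p : ℂ → ℂ := fun z => ∑ a ∈ F, f a * ((∏ b ∈ F.erase a, (z - b)) / ∏ b ∈ F.erase a, (a - b))
    with hp
  have hDn : ∀ a ∈ F, D ≤ ‖∏ b ∈ F.erase a, (a - b)‖ := by
    intro a ha
    rw [norm_prod]
    exact hD a ha
  have hDne : ∀ a ∈ F, ∏ b ∈ F.erase a, (a - b) ≠ 0 := by
    intro a ha h
    have := hDn a ha
    rw [h, norm_zero] at this
    linarith
  have hpa : ∀ c ∈ F, p c = f c := by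
    intro c hc
    rw [hp]
    simp only
    rw [Finset.sum_eq_single c]
    · rw [div_self (hDne c hc), mul_one]
    · intro a ha hac
      have : ∏ b ∈ F.erase a, (c - b) = 0 := by
        apply Finset.prod_eq_zero (i := c)
        · exact Finset.mem_erase.2 ⟨fun h => hac h.symm, hc⟩
        · ring
      rw [this, zero_div, mul_zero]
    · intro h; exact absurd hc h
  have hpd : Differentiable ℂ p := by
    rw [hp]
    apply Differentiable.fun_sum
    intro a _
    apply Differentiable.mul (differentiable_const _)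
    apply Differentiable.div_const
    apply Differentiable.fun_finsetProd
    intro b _
    fun_prop
  obtain ⟨g, hg, hg2⟩ := factor_zeros hU F (hF.trans (subset_closure.trans hWU)) (fun z => f z - p z)
    (hf.sub hpd.differentiableOn) (fun a ha => by simp [hpa a ha])
  -- the bound of g on the frontier
  have hfr : ∀ z ∈ frontier W, ‖g z‖ ≤ A / V + F.card * (B / (D * κ)) := by
    intro z hz
    have hzU : z ∈ U := hWU (frontier_subset_closure hz)
    have h1 := hg2 z hzU
    have h2 := hV z hz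
    rw [← norm_prod] at h2
    set P : ℂ := ∏ a ∈ F, (z - a) with hP
    have hPpos : 0 < ‖P‖ := lt_of_lt_of_le hV0 h2
    have hPne : P ≠ 0 := norm_pos_iff.1 hPpos
    have h3 : g z = f z / P - p z / P := by
      field_simp
      exact h1.symm
    have h4 : ‖f z / P‖ ≤ A / V := by
      rw [norm_div]
      exact div_le_div₀ hA0 (hA z hz) hV0 h2
    have h5 : ‖p z / P‖ ≤ F.card * (B / (D * κ)) := by
      rw [hp]
      simp only
      rw [Finset.sum_div]
      refine (norm_sum_le _ _).trans ?_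
      rw [← nsmul_eq_mul]
      apply Finset.sum_le_card_nsmul
      intro a ha
      have h6 : P = (z - a) * ∏ b ∈ F.erase a, (z - b) := by
        rw [hP, ← Finset.mul_prod_erase F _ ha]
      have h7 : (∏ b ∈ F.erase a, (z - b)) ≠ 0 := by
        intro h; rw [h, mul_zero] at h6; exact hPne h6
      have h8 : z - a ≠ 0 := by
        intro h; rw [h, zero_mul] at h6; exact hPne h6
      have h9 : f a * ((∏ b ∈ F.erase a, (z - b)) / ∏ b ∈ F.erase a, (a - b)) / P =
          f a / ((∏ b ∈ F.erase a, (a - b)) * (z - a)) := by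
        have := hDne a ha
        rw [h6]
        field_simp
      rw [h9, norm_div, norm_mul]
      exact div_le_div₀ hB0 (hB a ha) (by positivity)
        (mul_le_mul (hDn a ha) (hκ' a ha z hz) hκ.le (norm_nonneg _))
    rw [h3]
    exact (norm_sub_le _ _).trans (add_le_add h4 h5)
  have hgx : ‖g x‖ ≤ A / V + F.card * (B / (D * κ)) :=
    Complex.norm_le_of_forall_mem_frontier_norm_le hWb
      ((hg.mono hWU).diffContOnCl) hfr (subset_closure hx)
  have hpx : ‖p x‖ ≤ F.card * (B * (R / D)) := by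
    rw [hp]
    simp only
    refine (norm_sum_le _ _).trans ?_
    rw [← nsmul_eq_mul]
    apply Finset.sum_le_card_nsmul
    intro a ha
    rw [norm_mul, norm_div, norm_prod]
    apply mul_le_mul (hB a ha) _ (by positivity) hB0
    exact div_le_div₀ hR0 (hR' a ha) hD0 (hDn a ha)
  have hxU : x ∈ U := hWU (subset_closure hx)
  have h1 := hg2 x hxU
  have h2 : f x = g x * ∏ a ∈ F, (x - a) + p x := by
    rw [← h1]; ring
  have hfin : ‖f x‖ ≤ (A / V + F.card * (B / (D * κ))) * R + F.card * (B * (R / D)) := by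
    rw [h2]
    refine (norm_add_le _ _).trans (add_le_add ?_ hpx)
    rw [norm_mul, norm_prod]
    apply mul_le_mul hgx hR (Finset.prod_nonneg fun _ _ => norm_nonneg _)
    positivity
  refine hfin.trans (le_of_eq ?_)
  field_simp
  ring

end H855R2.LH
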