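import Mathlib

open Complex Filter Topology Set Finset

namespace H855R2.LH

theorem prod_rearr_aux (φ : ℕ → ℝ) (hφ : Monotone φ) (h0 : ∀ i, 0 < φ i) (N : ℕ) (d : ℕ)
    (hd : d ≤ N - 1) (hN : 1 ≤ N) :
    (∏ i ∈ range (N - 1), φ i) * (∏ i ∈ range N, φ i) ≤
      (∏ i ∈ range (N - 1 - d), φ i) * (∏ i ∈ range (N + d), φ i) := by
  induction d with
  | zero => simp
  | succ d ih =>
    have ih' := ih (by omega)
    refine ih'.trans ?_
    have e1 : N - 1 - d = (N - 1 - (d + 1)) + 1 := by omega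
    have e2 : N + (d + 1) = (N + d) + 1 := by omega
    rw [e2, Finset.prod_range_succ _ (N + d), e1, Finset.prod_range_succ]
    have h1 : φ (N - 1 - (d + 1)) ≤ φ (N + d) := hφ (by omega)
    have h2 : 0 < ∏ i ∈ range (N - 1 - (d + 1)), φ i := Finset.prod_pos fun i _ => h0 i
    have h3 : 0 < ∏ i ∈ range (N + d), φ i := Finset.prod_pos fun i _ => h0 i
    calc (∏ i ∈ range (N - 1 - (d + 1)), φ i) * φ (N - 1 - (d + 1)) * ∏ i ∈ range (N + d), φ i
        ≤ (∏ i ∈ range (N - 1 - (d + 1)), φ i) * φ (N + d) * ∏ i ∈ range (N + d), φ i := by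
          gcongr
      _ = _ := by ring

theorem prod_rearr (φ : ℕ → ℝ) (hφ : Monotone φ) (h0 : ∀ i, 0 < φ i) {a b N : ℕ}
    (h : a + b + 1 = 2 * N) :
    (∏ i ∈ range (N - 1), φ i) * (∏ i ∈ range N, φ i) ≤
      (∏ i ∈ range a, φ i) * (∏ i ∈ range b, φ i) := by
  have hN : 1 ≤ N := by omega
  rcases le_total a b with hab | hab
  · have := prod_rearr_aux φ hφ h0 N (N - 1 - a) (by omega) hN
    have e1 : N - 1 - (N - 1 - a) = a := by omega
    have e2 : N + (N - 1 - a) = b := by omega
    rwa [e1, e2] at this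
  · have := prod_rearr_aux φ hφ h0 N (N - 1 - b) (by omega) hN
    have e1 : N - 1 - (N - 1 - b) = b := by omega
    have e2 : N + (N - 1 - b) = a := by omega
    rw [e1, e2] at this
    rwa [mul_comm (∏ i ∈ range a, φ i)]

theorem cell_prod (φ : ℕ → ℝ) (hφ : Monotone φ) (h0 : ∀ i, 0 < φ i) {N : ℕ} {m : ℤ}
    (hm : m ∈ Finset.Ico (-(N : ℤ)) N) (d : ℤ → ℝ)
    (hd1 : ∀ j ∈ Finset.Ico (-(N : ℤ)) N, m < j → φ (j - m - 1).toNat ≤ d j)
    (hd2 : ∀ j ∈ Finset.Ico (-(N : ℤ)) N, j < m → φ (m - j - 1).toNat ≤ d j) :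
    (∏ i ∈ range (N - 1), φ i) * (∏ i ∈ range N, φ i) ≤
      ∏ j ∈ (Finset.Ico (-(N : ℤ)) N).erase m, d j := by
  classical
  rw [Finset.mem_Ico] at hm
  have hsplit : (Finset.Ico (-(N : ℤ)) N).erase m = Finset.Ico (m + 1) N ∪ Finset.Ico (-(N : ℤ)) m := by
    ext j
    simp only [Finset.mem_erase, Finset.mem_Ico, Finset.mem_union]
    omega
  have hdisj : Disjoint (Finset.Ico (m + 1) (N : ℤ)) (Finset.Ico (-(N : ℤ)) m) := by
    rw [Finset.disjoint_left]
    intro j
    simp only [Finset.mem_Ico]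
    omega
  rw [hsplit, Finset.prod_union hdisj]
  have hab : ((N : ℤ) - 1 - m).toNat + ((N : ℤ) + m).toNat + 1 = 2 * N := by omega
  refine (prod_rearr φ hφ h0 hab).trans ?_
  apply mul_le_mul
  · have h1 : ∏ i ∈ range ((N : ℤ) - 1 - m).toNat, φ i =
        ∏ j ∈ Finset.Ico (m + 1) (N : ℤ), φ (j - m - 1).toNat := by
      apply Finset.prod_bij (fun (i : ℕ) _ => (i : ℤ) + m + 1)
      · intro i hi
        simp only [Finset.mem_range] at hi
        simp only [Finset.mem_Ico]
        omega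
      · intro i _ j _ h
        omega
      · intro j hj
        simp only [Finset.mem_Ico] at hj
        refine ⟨(j - m - 1).toNat, ?_, ?_⟩
        · simp only [Finset.mem_range]; omega
        · omega
      · intro i _
        congr 1
        omega
    rw [h1]
    apply Finset.prod_le_prod
    · intro j _; exact (h0 _).le
    · intro j hj
      simp only [Finset.mem_Ico] at hj
      apply hd1 j _ (by omega)
      simp only [Finset.mem_Ico]; omega
  · have h1 : ∏ i ∈ range ((N : ℤ) + m).toNat, φ i =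
        ∏ j ∈ Finset.Ico (-(N : ℤ)) m, φ (m - j - 1).toNat := by
      apply Finset.prod_bij (fun (i : ℕ) _ => m - (i : ℤ) - 1)
      · intro i hi
        simp only [Finset.mem_range] at hi
        simp only [Finset.mem_Ico]
        omega
      · intro i _ j _ h
        omega
      · intro j hj
        simp only [Finset.mem_Ico] at hj
        refine ⟨(m - j - 1).toNat, ?_, ?_⟩
        · simp only [Finset.mem_range]; omega
        · omega
      · intro i _
        congr 1
        omega
    rw [h1]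
    apply Finset.prod_le_prod
    · intro j _; exact (h0 _).le
    · intro j hj
      simp only [Finset.mem_Ico] at hj
      apply hd2 j _ (by omega)
      simp only [Finset.mem_Ico]; omega
  · exact Finset.prod_nonneg fun i _ => (h0 i).le
  · apply Finset.prod_nonneg
    intro j hj
    simp only [Finset.mem_Ico] at hj
    refine (h0 _).le.trans (hd1 j ?_ (by omega))
    simp only [Finset.mem_Ico]; omega

theorem sinh_prod {Y : ℝ} (hY : 0 < Y) {n : ℕ} (hn : 1 ≤ n) :
    Real.sinh (Real.pi * Y) / (Real.pi * Y) * Real.exp (-(Y ^ 2 / n)) ≤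
      ∏ i ∈ range n, (1 + Y ^ 2 / ((i : ℝ) + 1) ^ 2) := by
  have hpi := Real.pi_pos
  have hn0 : (0:ℝ) < n := by exact_mod_cast hn
  -- partial products
  have hlim : Tendsto (fun m : ℕ => ∏ i ∈ range m, (1 + Y ^ 2 / ((i : ℝ) + 1) ^ 2)) atTop
      (𝓝 (Real.sinh (Real.pi * Y) / (Real.pi * Y))) := by
    have h1 := Complex.tendsto_euler_sin_prod (Y * I)
    have h2 : Complex.sin (Real.pi * (Y * I)) = (Real.sinh (Real.pi * Y) : ℂ) * I := by
      rw [← mul_assoc, Complex.sin_mul_I]
      push_cast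
      rfl
    rw [h2] at h1
    have h3 : ∀ m : ℕ, (Real.pi : ℂ) * (Y * I) * ∏ j ∈ range m, (1 - (Y * I : ℂ) ^ 2 / ((j : ℂ) + 1) ^ 2) =
        ((Real.pi * Y * ∏ j ∈ range m, (1 + Y ^ 2 / ((j : ℝ) + 1) ^ 2) : ℝ) : ℂ) * I := by
      intro m
      push_cast
      have : ∀ j : ℕ, (1 - (Y * I : ℂ) ^ 2 / ((j : ℂ) + 1) ^ 2) = 1 + (Y : ℂ) ^ 2 / ((j : ℂ) + 1) ^ 2 := by
        intro j
        rw [mul_pow, Complex.I_sq]
        ring
      simp_rw [this]
      ring
    simp_rw [h3] at h1
    have h4 : Tendsto (fun m : ℕ => Real.pi * Y * ∏ j ∈ range m, (1 + Y ^ 2 / ((j : ℝ) + 1) ^ 2)) atTop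
        (𝓝 (Real.sinh (Real.pi * Y))) := by
      have h5 := (Complex.continuous_im.tendsto _).comp h1
      simp only [Function.comp_def, Complex.mul_I_im, Complex.ofReal_re] at h5
      exact h5
    have h6 := h4.div_const (Real.pi * Y)
    refine h6.congr (fun m => ?_)
    field_simp
  -- tail bound
  have htail : ∀ m : ℕ, n ≤ m → ∏ i ∈ range m, (1 + Y ^ 2 / ((i : ℝ) + 1) ^ 2) ≤
      (∏ i ∈ range n, (1 + Y ^ 2 / ((i : ℝ) + 1) ^ 2)) * Real.exp (Y ^ 2 / n - Y ^ 2 / m) := by
    intro m hm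
    induction m, hm using Nat.le_induction with
    | base => simp
    | succ m hm ih =>
      rw [Finset.prod_range_succ]
      have hm0 : (0:ℝ) < m := by
        have : 1 ≤ m := hn.trans hm
        exact_mod_cast this
      have h1 : 1 + Y ^ 2 / ((m : ℝ) + 1) ^ 2 ≤ Real.exp (Y ^ 2 / m - Y ^ 2 / ((m : ℝ) + 1)) := by
        have h2 : Y ^ 2 / ((m : ℝ) + 1) ^ 2 ≤ Y ^ 2 / m - Y ^ 2 / ((m : ℝ) + 1) := by
          have h3 : Y ^ 2 / m - Y ^ 2 / ((m : ℝ) + 1) = Y ^ 2 / (m * ((m : ℝ) + 1)) := by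
            field_simp
            ring
          rw [h3]
          apply div_le_div_of_nonneg_left (by positivity) (by positivity)
          nlinarith
        have h4 := Real.add_one_le_exp (Y ^ 2 / m - Y ^ 2 / ((m : ℝ) + 1))
        linarith
      have h5 : Real.exp (Y ^ 2 / n - Y ^ 2 / ((m + 1 : ℕ) : ℝ)) =
          Real.exp (Y ^ 2 / n - Y ^ 2 / m) * Real.exp (Y ^ 2 / m - Y ^ 2 / ((m : ℝ) + 1)) := by
        rw [← Real.exp_add]
        congr 1
        push_cast
        ring
      rw [h5, ← mul_assoc]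
      apply mul_le_mul ih h1 (by positivity)
      have : 0 ≤ ∏ i ∈ range n, (1 + Y ^ 2 / ((i : ℝ) + 1) ^ 2) :=
        Finset.prod_nonneg fun i _ => by positivity
      positivity
  have hP : 0 ≤ ∏ i ∈ range n, (1 + Y ^ 2 / ((i : ℝ) + 1) ^ 2) :=
    Finset.prod_nonneg fun i _ => by positivity
  have hle : Real.sinh (Real.pi * Y) / (Real.pi * Y) ≤
      (∏ i ∈ range n, (1 + Y ^ 2 / ((i : ℝ) + 1) ^ 2)) * Real.exp (Y ^ 2 / n) := by
    apply le_of_tendsto hlim
    filter_upwards [eventually_ge_atTop n] with m hm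
    refine (htail m hm).trans ?_
    apply mul_le_mul_of_nonneg_left _ hP
    apply Real.exp_le_exp.2
    have : 0 ≤ Y ^ 2 / m := by positivity
    linarith
  calc Real.sinh (Real.pi * Y) / (Real.pi * Y) * Real.exp (-(Y ^ 2 / n))
      ≤ (∏ i ∈ range n, (1 + Y ^ 2 / ((i : ℝ) + 1) ^ 2)) * Real.exp (Y ^ 2 / n) *
        Real.exp (-(Y ^ 2 / n)) := mul_le_mul_of_nonneg_right hle (Real.exp_pos _).le
    _ = _ := by
      rw [mul_assoc, ← Real.exp_add]; simp

/-- product of the distances to the points on the right -/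
theorem sep_right {s : ℝ} (hs : 0 < s) (x : ℝ) (F : Finset ℝ) :
    (∀ y ∈ F, x < y) → (∀ y ∈ F, s ≤ y - x) → (∀ y ∈ F, ∀ z ∈ F, y ≠ z → s ≤ |y - z|) →
    s ^ F.card * (F.card.factorial : ℝ) ≤ ∏ y ∈ F, |x - y| ∧ ∀ y ∈ F, (∀ z ∈ F, z ≤ y) →
      s * F.card ≤ y - x := by
  classical
  induction F using Finset.induction_on_max with
  | empty => intro _ _ _; simp
  | insert a F ha ih =>
    intro h1 h2 h3
    have haF : a ∉ F := fun h => lt_irrefl _ (ha a h)
    obtain ⟨i1, i2⟩ := ih (fun y hy => h1 y (by simp [hy])) (fun y hy => h2 y (by simp [hy]))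
      (fun y hy z hz => h3 y (by simp [hy]) z (by simp [hz]))
    have hbig : s * ((insert a F).card : ℝ) ≤ a - x := by
      rw [Finset.card_insert_of_notMem haF]
      push_cast
      rcases F.eq_empty_or_nonempty with hF | hF
      · subst hF
        simpa using h2 a (by simp)
      · have hmax := i2 (F.max' hF) (F.max'_mem hF) (fun z hz => F.le_max' z hz)
        have h4 := h3 a (by simp) (F.max' hF) (by simp [F.max'_mem hF]) (ha _ (F.max'_mem hF)).ne'
        rw [abs_of_pos (by linarith [ha _ (F.max'_mem hF)])] at h4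
        linarith
    constructor
    · rw [Finset.prod_insert haF]
      have hcard : (insert a F).card = F.card + 1 := Finset.card_insert_of_notMem haF
      rw [hcard] at hbig ⊢
      rw [Nat.factorial_succ, abs_sub_comm, abs_of_pos (by linarith [h1 a (by simp)])]
      push_cast at hbig ⊢
      calc s ^ (F.card + 1) * (((F.card : ℝ) + 1) * (F.card.factorial : ℝ))
          = (s * ((F.card : ℝ) + 1)) * (s ^ F.card * (F.card.factorial : ℝ)) := by ring
        _ ≤ (a - x) * ∏ y ∈ F, |x - y| := by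
          apply mul_le_mul hbig i1 (by positivity) (by linarith [h1 a (by simp)])
    · intro y hy hy2
      have : y = a := by
        rcases Finset.mem_insert.1 hy with h | h
        · exact h
        · exact absurd (hy2 a (by simp)) (not_le.2 (ha y h))
      rw [this]
      exact hbig

theorem sep_prod {s : ℝ} (hs : 0 < s) (F : Finset ℝ)
    (hF : ∀ x ∈ F, ∀ y ∈ F, x ≠ y → s ≤ |x - y|) {x : ℝ} (hx : x ∈ F) :
    s ^ (F.card - 1) * ((F.card - 1).factorial : ℝ) / 2 ^ (F.card - 1) ≤
      ∏ y ∈ F.erase x, |x - y| := by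
  classical
  set P := (F.erase x).filter (fun y => x < y) with hP
  set Q := (F.erase x).filter (fun y => ¬ x < y) with hQ
  have hsplit : ∏ y ∈ F.erase x, |x - y| = (∏ y ∈ P, |x - y|) * ∏ y ∈ Q, |x - y| :=
    (Finset.prod_filter_mul_prod_filter_not _ _ _).symm
  have hcard : P.card + Q.card = F.card - 1 := by
    rw [hP, hQ, Finset.card_filter_add_card_filter_not, Finset.card_erase_of_mem hx]
  have memP : ∀ y ∈ P, y ∈ F ∧ x < y := by
    intro y hy
    simp only [hP, Finset.mem_filter, Finset.mem_erase] at hy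
    exact ⟨hy.1.2, hy.2⟩
  have memQ : ∀ y ∈ Q, y ∈ F ∧ y < x := by
    intro y hy
    simp only [hQ, Finset.mem_filter, Finset.mem_erase] at hy
    exact ⟨hy.1.2, lt_of_le_of_ne (not_lt.1 hy.2) hy.1.1⟩
  have h1 := (sep_right hs x P (fun y hy => (memP y hy).2) (fun y hy => by
    have := hF x hx y (memP y hy).1 (memP y hy).2.ne
    rwa [abs_sub_comm, abs_of_pos (by linarith [(memP y hy).2])] at this)
    (fun y hy z hz => hF y (memP y hy).1 z (memP z hz).1)).1
  -- reflect Q
  have h2 : s ^ Q.card * (Q.card.factorial : ℝ) ≤ ∏ y ∈ Q, |x - y| := by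
    have h3 := (sep_right hs (-x) (Q.image (fun y => -y)) (fun y hy => by
      obtain ⟨z, hz, rfl⟩ := Finset.mem_image.1 hy
      linarith [(memQ z hz).2]) (fun y hy => by
      obtain ⟨z, hz, rfl⟩ := Finset.mem_image.1 hy
      have := hF x hx z (memQ z hz).1 (memQ z hz).2.ne'
      rw [abs_of_pos (by linarith [(memQ z hz).2])] at this
      linarith) (fun y hy z hz hne => by
      obtain ⟨y', hy', rfl⟩ := Finset.mem_image.1 hy
      obtain ⟨z', hz', rfl⟩ := Finset.mem_image.1 hz
      have := hF y' (memQ y' hy').1 z' (memQ z' hz').1 (fun h => hne (by rw [h]))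
      rw [abs_sub_comm] at this
      have e : -y' - -z' = z' - y' := by ring
      rw [e]
      exact this)).1
    rw [Finset.card_image_of_injective _ neg_injective,
      Finset.prod_image (fun a _ b _ h => neg_injective h)] at h3
    refine h3.trans (le_of_eq ?_)
    apply Finset.prod_congr rfl
    intro y _
    have e : -x - -y = -(x - y) := by ring
    rw [e, abs_neg]
  rw [hsplit, ← hcard]
  have h4 : ((P.card + Q.card).factorial : ℝ) ≤
      2 ^ (P.card + Q.card) * ((P.card.factorial : ℝ) * (Q.card.factorial : ℝ)) := by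
    have h5 := Nat.add_choose_mul_factorial_mul_factorial P.card Q.card
    have h6 : (P.card + Q.card).choose Q.card ≤ 2 ^ (P.card + Q.card) := Nat.choose_le_two_pow _ _
    have h7 : (P.card + Q.card).factorial ≤
        2 ^ (P.card + Q.card) * (P.card.factorial * Q.card.factorial) := by
      rw [← h5, mul_assoc]
      exact Nat.mul_le_mul_right _ h6
    exact_mod_cast h7
  calc s ^ (P.card + Q.card) * ((P.card + Q.card).factorial : ℝ) / 2 ^ (P.card + Q.card)
      ≤ s ^ (P.card + Q.card) * (2 ^ (P.card + Q.card) *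
        ((P.card.factorial : ℝ) * (Q.card.factorial : ℝ))) / 2 ^ (P.card + Q.card) := by
        gcongr
    _ = (s ^ P.card * (P.card.factorial : ℝ)) * (s ^ Q.card * (Q.card.factorial : ℝ)) := by
        rw [pow_add]
        field_simp
    _ ≤ (∏ y ∈ P, |x - y|) * ∏ y ∈ Q, |x - y| := by
        apply mul_le_mul h1 h2 (by positivity) (Finset.prod_nonneg fun _ _ => abs_nonneg _)

end H855R2.LH
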