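import Mathlib
import Pool.Agent.H855R2.LH.Interp
import Pool.Agent.H855R2.LH.Prod

open Complex Filter Topology Set Finset

namespace H855R2.LH

/-- `n` nodes in every one of the `2N` cells `[j, j+1]`, away from the end points, `s`-separated
inside each cell -/
structure Nodes (N n : ℕ) (κ s : ℝ) (F : ℤ → Finset ℝ) : Prop where
  card : ∀ j ∈ Finset.Ico (-(N : ℤ)) N, (F j).card = n
  mem : ∀ j ∈ Finset.Ico (-(N : ℤ)) N, ∀ x ∈ F j, (j : ℝ) + κ ≤ x ∧ x ≤ j + 1 - κ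
  sep : ∀ j ∈ Finset.Ico (-(N : ℤ)) N, ∀ x ∈ F j, ∀ y ∈ F j, x ≠ y → s ≤ |x - y|

theorem cells_lower {N n : ℕ} {κ s : ℝ} {F : ℤ → Finset ℝ} (hF : Nodes N n κ s F)
    (φ : ℕ → ℝ) (hφ : Monotone φ) (h0 : ∀ i, 0 < φ i) {m : ℤ}
    (hm : m ∈ Finset.Ico (-(N : ℤ)) N) (g : ℤ → ℝ → ℝ) {P0 : ℝ} (hP0 : 0 ≤ P0)
    (hg0 : P0 ≤ ∏ x ∈ F m, g m x)
    (hg1 : ∀ j ∈ Finset.Ico (-(N : ℤ)) N, m < j → ∀ x ∈ F j, φ (j - m - 1).toNat ≤ g j x)
    (hg2 : ∀ j ∈ Finset.Ico (-(N : ℤ)) N, j < m → ∀ x ∈ F j, φ (m - j - 1).toNat ≤ g j x) :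
    P0 * ((∏ i ∈ range (N - 1), φ i) * (∏ i ∈ range N, φ i)) ^ n ≤
      ∏ j ∈ Finset.Ico (-(N : ℤ)) N, ∏ x ∈ F j, g j x := by
  classical
  rw [← Finset.mul_prod_erase _ _ hm]
  set d : ℤ → ℝ := fun j => if m < j then φ (j - m - 1).toNat else φ (m - j - 1).toNat with hd
  have hd0 : ∀ j, 0 < d j := by
    intro j
    rw [hd]
    simp only
    split_ifs
    · exact h0 _
    · exact h0 _
  have h1 := cell_prod φ hφ h0 hm d (by
    intro j _ hj
    rw [hd]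
    simp only
    rw [if_pos hj]) (by
    intro j _ hj
    rw [hd]
    simp only
    rw [if_neg (by omega)])
  have h2 : ((∏ i ∈ range (N - 1), φ i) * (∏ i ∈ range N, φ i)) ^ n ≤
      ∏ j ∈ (Finset.Ico (-(N : ℤ)) N).erase m, ∏ x ∈ F j, g j x := by
    refine (pow_le_pow_left₀ ?_ h1 n).trans ?_
    · exact mul_nonneg (Finset.prod_nonneg fun i _ => (h0 i).le)
        (Finset.prod_nonneg fun i _ => (h0 i).le)
    · rw [← Finset.prod_pow]
      apply Finset.prod_le_prod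
      · intro j _; exact pow_nonneg (hd0 j).le _
      · intro j hj
        have hj' := Finset.mem_erase.1 hj
        rw [← hF.card j hj'.2, ← Finset.prod_const]
        apply Finset.prod_le_prod
        · intro x _; exact (hd0 j).le
        · intro x hx
          rcases lt_or_gt_of_ne hj'.1 with h | h
          · have := hg2 j hj'.2 h x hx
            rw [hd]
            simp only
            rw [if_neg (by omega)]
            exact this
          · have := hg1 j hj'.2 h x hx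
            rw [hd]
            simp only
            rw [if_pos h]
            exact this
  apply mul_le_mul hg0 h2
  · exact pow_nonneg (mul_nonneg (Finset.prod_nonneg fun i _ => (h0 i).le)
        (Finset.prod_nonneg fun i _ => (h0 i).le)) _
  · exact hP0.trans hg0

/-- one-sided version: the point is to the left or to the right of all cells -/
theorem cells_lower_end {N n : ℕ} {κ s : ℝ} {F : ℤ → Finset ℝ} (hF : Nodes N n κ s F)
    (φ : ℕ → ℝ) (h0 : ∀ i, 0 < φ i) (g : ℤ → ℝ → ℝ)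
    (hg : (∀ j ∈ Finset.Ico (-(N : ℤ)) N, ∀ x ∈ F j, φ ((N : ℤ) - 1 - j).toNat ≤ g j x) ∨
      (∀ j ∈ Finset.Ico (-(N : ℤ)) N, ∀ x ∈ F j, φ (j + N).toNat ≤ g j x)) :
    (∏ i ∈ range (2 * N), φ i) ^ n ≤ ∏ j ∈ Finset.Ico (-(N : ℤ)) N, ∏ x ∈ F j, g j x := by
  rcases hg with hg | hg
  · have h1 : ∏ i ∈ range (2 * N), φ i =
        ∏ j ∈ Finset.Ico (-(N : ℤ)) N, φ ((N : ℤ) - 1 - j).toNat := by
      apply Finset.prod_bij (fun (i : ℕ) _ => (N : ℤ) - 1 - i)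
      · intro i hi
        simp only [Finset.mem_range] at hi
        simp only [Finset.mem_Ico]
        omega
      · intro i _ j _ h
        omega
      · intro j hj
        simp only [Finset.mem_Ico] at hj
        refine ⟨((N : ℤ) - 1 - j).toNat, ?_, ?_⟩
        · simp only [Finset.mem_range]; omega
        · omega
      · intro i _
        congr 1
        omega
    rw [h1, ← Finset.prod_pow]
    apply Finset.prod_le_prod
    · intro j _; exact pow_nonneg (h0 _).le _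
    · intro j hj
      rw [← hF.card j hj, ← Finset.prod_const]
      apply Finset.prod_le_prod
      · intro x _; exact (h0 _).le
      · intro x hx; exact hg j hj x hx
  · have h1 : ∏ i ∈ range (2 * N), φ i =
        ∏ j ∈ Finset.Ico (-(N : ℤ)) N, φ (j + N).toNat := by
      apply Finset.prod_bij (fun (i : ℕ) _ => (i : ℤ) - N)
      · intro i hi
        simp only [Finset.mem_range] at hi
        simp only [Finset.mem_Ico]
        omega
      · intro i _ j _ h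
        omega
      · intro j hj
        simp only [Finset.mem_Ico] at hj
        refine ⟨(j + N).toNat, ?_, ?_⟩
        · simp only [Finset.mem_range]; omega
        · omega
      · intro i _
        congr 1
        omega
    rw [h1, ← Finset.prod_pow]
    apply Finset.prod_le_prod
    · intro j _; exact pow_nonneg (h0 _).le _
    · intro j hj
      rw [← hF.card j hj, ← Finset.prod_const]
      apply Finset.prod_le_prod
      · intro x _; exact (h0 _).le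
      · intro x hx; exact hg j hj x hx

theorem prod_max {κ : ℝ} (hκ : 0 < κ) (hκ1 : κ ≤ 1) (k : ℕ) :
    ∏ i ∈ range (k + 1), max κ (i : ℝ) = κ * (k.factorial : ℝ) := by
  induction k with
  | zero => simp [hκ.le]
  | succ k ih =>
    rw [Finset.prod_range_succ, ih, Nat.factorial_succ]
    have : max κ ((k + 1 : ℕ) : ℝ) = (k : ℝ) + 1 := by
      rw [max_eq_right]
      · push_cast; ring
      · push_cast
        have : (0:ℝ) ≤ k := Nat.cast_nonneg k
        linarith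
    rw [this]
    push_cast
    ring

theorem prod_sqrt {Y : ℝ} (hY : 0 < Y) (k : ℕ) :
    (∏ i ∈ range (k + 1), Real.sqrt ((i : ℝ) ^ 2 + Y ^ 2)) ^ 2 =
      Y ^ 2 * ((k.factorial : ℝ) ^ 2 * ∏ i ∈ range k, (1 + Y ^ 2 / ((i : ℝ) + 1) ^ 2)) := by
  rw [← Finset.prod_pow, Finset.prod_range_succ']
  have h1 : ∀ i : ℕ, Real.sqrt ((i : ℝ) ^ 2 + Y ^ 2) ^ 2 = (i : ℝ) ^ 2 + Y ^ 2 := by
    intro i
    exact Real.sq_sqrt (by positivity)
  simp_rw [h1]
  have h2 : ∏ i ∈ range k, (((i + 1 : ℕ) : ℝ) ^ 2 + Y ^ 2) =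
      (k.factorial : ℝ) ^ 2 * ∏ i ∈ range k, (1 + Y ^ 2 / ((i : ℝ) + 1) ^ 2) := by
    have h3 : (k.factorial : ℝ) ^ 2 = ∏ i ∈ range k, ((i : ℝ) + 1) ^ 2 := by
      rw [Finset.prod_pow, ← Finset.prod_range_add_one_eq_factorial]
      push_cast
      rfl
    rw [h3, ← Finset.prod_mul_distrib]
    apply Finset.prod_congr rfl
    intro i _
    have : ((i : ℝ) + 1) ≠ 0 := by positivity
    push_cast
    field_simp
  rw [h2]
  simp
  ring

/-- factorial comparison, horizontal sides -/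
theorem horiz_bound {N : ℕ} (hN : 3 ≤ N) {Y κ : ℝ} (hY : 1 ≤ Y) (hκ : 0 < κ) (hκ1 : κ ≤ 1) :
    ((N.factorial : ℝ)) ^ 2 ≤ ((13 * N ^ 3 / κ) * Real.exp (-(Real.pi * Y - Y ^ 2 / (N - 2)))) *
      (Y * ((∏ i ∈ range (N - 1), Real.sqrt ((i : ℝ) ^ 2 + Y ^ 2)) *
        (∏ i ∈ range N, Real.sqrt ((i : ℝ) ^ 2 + Y ^ 2)))) := by
  obtain ⟨k, rfl⟩ : ∃ k, N = k + 3 := ⟨N - 3, by omega⟩
  have e1 : k + 3 - 1 = (k + 1) + 1 := by omega
  have e2 : k + 3 = ((k + 1) + 1) + 1 := by omega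
  have e3 : (((k + 3 : ℕ) : ℝ) - 2) = ((k + 1 : ℕ) : ℝ) := by push_cast; ring
  have hY0 : 0 < Y := by linarith
  rw [e3, e1]
  have hsucc : ∏ i ∈ range (k + 3), Real.sqrt ((i : ℝ) ^ 2 + Y ^ 2) =
      (∏ i ∈ range ((k + 1) + 1), Real.sqrt ((i : ℝ) ^ 2 + Y ^ 2)) *
        Real.sqrt (((k + 2 : ℕ) : ℝ) ^ 2 + Y ^ 2) := by
    rw [e2, Finset.prod_range_succ]
  rw [hsucc]
  set P := ∏ i ∈ range ((k + 1) + 1), Real.sqrt ((i : ℝ) ^ 2 + Y ^ 2) with hP
  have hP2 : P ^ 2 = Y ^ 2 * (((k + 1).factorial : ℝ) ^ 2 *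
      ∏ i ∈ range (k + 1), (1 + Y ^ 2 / ((i : ℝ) + 1) ^ 2)) := prod_sqrt hY0 (k + 1)
  have hs := sinh_prod hY0 (n := k + 1) (by omega)
  set Q := ∏ i ∈ range (k + 1), (1 + Y ^ 2 / ((i : ℝ) + 1) ^ 2) with hQ
  have hsq : ((k + 2 : ℕ) : ℝ) ≤ Real.sqrt (((k + 2 : ℕ) : ℝ) ^ 2 + Y ^ 2) := by
    apply Real.le_sqrt_of_sq_le
    nlinarith
  have hpi := Real.pi_pos
  have hpi3 := Real.pi_gt_three
  -- sinh bound
  have hsinh : Real.exp (Real.pi * Y) / 4 ≤ Real.sinh (Real.pi * Y) := by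
    rw [Real.sinh_eq]
    have h1 : Real.exp (-(Real.pi * Y)) ≤ 1 := by
      rw [Real.exp_le_one_iff]; nlinarith
    have h2 : (4:ℝ) ≤ Real.exp (Real.pi * Y) := by
      have := Real.add_one_le_exp (Real.pi * Y)
      nlinarith
    linarith
  have hfact : (((k + 3).factorial : ℕ) : ℝ) = ((k:ℝ) + 3) * (((k:ℝ) + 2) * ((k + 1).factorial : ℝ)) := by
    rw [Nat.factorial_succ, Nat.factorial_succ]
    push_cast
    ring
  -- main
  have hE : Real.exp (-(Real.pi * Y - Y ^ 2 / ((k + 1 : ℕ) : ℝ))) =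
      Real.exp (-(Real.pi * Y)) * Real.exp (Y ^ 2 / ((k + 1 : ℕ) : ℝ)) := by
    rw [← Real.exp_add]; congr 1; ring
  have hQ2 : 1 / (4 * (Real.pi * Y)) ≤ Real.exp (-(Real.pi * Y)) *
      Real.exp (Y ^ 2 / ((k + 1 : ℕ) : ℝ)) * Q := by
    have h1 : Real.exp (Real.pi * Y) / 4 / (Real.pi * Y) * Real.exp (-(Y ^ 2 / ((k + 1 : ℕ) : ℝ))) ≤ Q := by
      refine le_trans ?_ hs
      gcongr
    calc 1 / (4 * (Real.pi * Y))
        = Real.exp (-(Real.pi * Y)) * Real.exp (Y ^ 2 / ((k + 1 : ℕ) : ℝ)) *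
          (Real.exp (Real.pi * Y) / 4 / (Real.pi * Y) * Real.exp (-(Y ^ 2 / ((k + 1 : ℕ) : ℝ)))) := by
          have h2 : Real.exp (-(Real.pi * Y)) * Real.exp (Real.pi * Y) = 1 := by
            rw [← Real.exp_add]; simp
          have h3 : Real.exp (Y ^ 2 / ((k + 1 : ℕ) : ℝ)) * Real.exp (-(Y ^ 2 / ((k + 1 : ℕ) : ℝ))) = 1 := by
            rw [← Real.exp_add]; simp
          calc 1 / (4 * (Real.pi * Y)) = (1 * 1) * (1 / (4 * (Real.pi * Y))) := by ring
            _ = (Real.exp (-(Real.pi * Y)) * Real.exp (Real.pi * Y)) *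
                (Real.exp (Y ^ 2 / ((k + 1 : ℕ) : ℝ)) * Real.exp (-(Y ^ 2 / ((k + 1 : ℕ) : ℝ)))) *
                (1 / (4 * (Real.pi * Y))) := by rw [h2, h3]
            _ = _ := by field_simp
      _ ≤ _ := by
        apply mul_le_mul_of_nonneg_left h1
        positivity
  have hf0 : (0:ℝ) < ((k + 1).factorial : ℝ) := by exact_mod_cast Nat.factorial_pos _
  have hk0 : (0:ℝ) ≤ k := Nat.cast_nonneg k
  have hlow : Y ^ 3 * (((k + 1).factorial : ℝ) ^ 2 * Q) * ((k:ℝ) + 2) ≤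
      Y * (P * (P * Real.sqrt (((k + 2 : ℕ) : ℝ) ^ 2 + Y ^ 2))) := by
    have h1 : Y * (P * (P * Real.sqrt (((k + 2 : ℕ) : ℝ) ^ 2 + Y ^ 2))) =
        Y * P ^ 2 * Real.sqrt (((k + 2 : ℕ) : ℝ) ^ 2 + Y ^ 2) := by ring
    rw [h1, hP2]
    have h2 : Y * (Y ^ 2 * (((k + 1).factorial : ℝ) ^ 2 * Q)) = Y ^ 3 * (((k + 1).factorial : ℝ) ^ 2 * Q) := by
      ring
    rw [h2]
    have hQ0 : 0 ≤ Q := by
      rw [hQ]; exact Finset.prod_nonneg fun i _ => by positivity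
    apply mul_le_mul_of_nonneg_left _ (by positivity)
    refine le_trans (le_of_eq ?_) hsq
    push_cast; ring
  have hE0 : 0 < (13 * ((k + 3 : ℕ) : ℝ) ^ 3 / κ) * Real.exp (-(Real.pi * Y - Y ^ 2 / ((k + 1 : ℕ) : ℝ))) := by
    positivity
  refine le_trans ?_ (mul_le_mul_of_nonneg_left hlow hE0.le)
  rw [hE, hfact]
  have h13 : (13:ℝ) * ((k + 3 : ℕ) : ℝ) ^ 3 ≤ 13 * ((k + 3 : ℕ) : ℝ) ^ 3 / κ := by
    rw [le_div_iff₀ hκ]
    have : (0:ℝ) ≤ 13 * ((k + 3 : ℕ) : ℝ) ^ 3 := by positivity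
    nlinarith
  have hpi4 : Real.pi ≤ 3.15 := Real.pi_lt_d2.le
  calc (((k:ℝ) + 3) * (((k:ℝ) + 2) * ((k + 1).factorial : ℝ))) ^ 2
      ≤ (13 * ((k:ℝ) + 3) ^ 3) * ((1 / (4 * (Real.pi * Y))) *
        (Y ^ 3 * ((k + 1).factorial : ℝ) ^ 2 * ((k:ℝ) + 2))) := by
        have h5 : (13 * ((k:ℝ) + 3) ^ 3) * ((1 / (4 * (Real.pi * Y))) *
          (Y ^ 3 * ((k + 1).factorial : ℝ) ^ 2 * ((k:ℝ) + 2))) =
          (13 / (4 * Real.pi)) * Y ^ 2 * (((k:ℝ) + 3) ^ 3 * ((k:ℝ) + 2)) * ((k + 1).factorial : ℝ) ^ 2 := by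
          field_simp
        rw [h5, mul_pow, mul_pow, ← mul_assoc]
        apply mul_le_mul_of_nonneg_right _ (by positivity)
        have h6 : (1:ℝ) ≤ 13 / (4 * Real.pi) := by
          rw [le_div_iff₀ (by positivity)]
          nlinarith
        have h7 : (1:ℝ) ≤ Y ^ 2 := by nlinarith
        have h8 : (1:ℝ) ≤ 13 / (4 * Real.pi) * Y ^ 2 :=
          h6.trans (le_mul_of_one_le_right (by positivity) h7)
        have h9 : ((k:ℝ) + 3) ^ 2 * ((k:ℝ) + 2) ^ 2 ≤ ((k:ℝ) + 3) ^ 3 * ((k:ℝ) + 2) := by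
          have : ((k:ℝ) + 3) ^ 2 * ((k:ℝ) + 2) ^ 2 = ((k:ℝ) + 3) ^ 2 * ((k:ℝ) + 2) * ((k:ℝ) + 2) := by ring
          rw [this]
          have h10 : ((k:ℝ) + 3) ^ 3 * ((k:ℝ) + 2) = ((k:ℝ) + 3) ^ 2 * ((k:ℝ) + 2) * ((k:ℝ) + 3) := by ring
          rw [h10]
          apply mul_le_mul_of_nonneg_left _ (by positivity)
          linarith
        have h11 : 0 ≤ ((k:ℝ) + 3) ^ 3 * ((k:ℝ) + 2) := by positivity
        exact h9.trans (le_mul_of_one_le_left h11 h8)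
    _ ≤ (13 * ((k + 3 : ℕ) : ℝ) ^ 3 / κ) * ((Real.exp (-(Real.pi * Y)) *
        Real.exp (Y ^ 2 / ((k + 1 : ℕ) : ℝ)) * Q) * (Y ^ 3 * ((k + 1).factorial : ℝ) ^ 2 * ((k:ℝ) + 2))) := by
        apply mul_le_mul
        · refine le_trans (le_of_eq ?_) h13
          push_cast; ring
        · apply mul_le_mul_of_nonneg_right hQ2 (by positivity)
        · positivity
        · positivity
    _ = _ := by ring

/-- factorial comparison, vertical sides -/
theorem vert_bound {N : ℕ} (hN : 3 ≤ N) {Y κ : ℝ} (hY : 1 ≤ Y) (hκ : 0 < κ) (hκ1 : κ ≤ 1)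
    (hYN : 3 * Y ≤ N) :
    ((N.factorial : ℝ)) ^ 2 ≤ ((13 * N ^ 3 / κ) * Real.exp (-(Real.pi * Y - Y ^ 2 / (N - 2)))) *
      (κ * ((2 * N - 1).factorial : ℝ)) := by
  have hN3 : (3:ℝ) ≤ N := by exact_mod_cast hN
  have hN0 : (0:ℝ) < N := by linarith
  -- central binomial coefficient
  have h1 : (4:ℝ) ^ N * ((N.factorial : ℝ)) ^ 2 ≤ 4 * N ^ 2 * ((2 * N - 1).factorial : ℝ) := by
    have h2 := Nat.four_pow_le_two_mul_self_mul_centralBinom N (by omega)
    have h3 : Nat.centralBinom N * (N.factorial * N.factorial) = (2 * N).factorial := by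
      rw [Nat.centralBinom]
      have := Nat.choose_mul_factorial_mul_factorial (n := 2 * N) (k := N) (by omega)
      rw [show 2 * N - N = N by omega] at this
      rw [← this]; ring
    have h4 : (2 * N).factorial = (2 * N) * (2 * N - 1).factorial := by
      rw [Nat.mul_factorial_pred (by omega)]
    have h5 : 4 ^ N * (N.factorial * N.factorial) ≤ 2 * N * ((2 * N) * (2 * N - 1).factorial) := by
      rw [← h4, ← h3]
      calc 4 ^ N * (N.factorial * N.factorial) ≤ 2 * N * Nat.centralBinom N * (N.factorial * N.factorial) :=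
            Nat.mul_le_mul_right _ h2
        _ = _ := by ring
    have h6 : ((4:ℝ) ^ N * ((N.factorial : ℝ) * (N.factorial : ℝ))) ≤
        2 * N * ((2 * N) * ((2 * N - 1).factorial : ℝ)) := by exact_mod_cast h5
    calc (4:ℝ) ^ N * ((N.factorial : ℝ)) ^ 2 = (4:ℝ) ^ N * ((N.factorial : ℝ) * (N.factorial : ℝ)) := by ring
      _ ≤ _ := h6
      _ = _ := by ring
  have hexp : Real.exp (Real.pi * Y) ≤ (4:ℝ) ^ N := by
    have h7 : (4:ℝ) ^ N = Real.exp (N * Real.log 4) := by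
      rw [mul_comm, Real.exp_mul, Real.exp_log (by norm_num), Real.rpow_natCast]
    rw [h7]
    apply Real.exp_le_exp.2
    have h8 : Real.log 4 = 2 * Real.log 2 := by
      rw [show (4:ℝ) = 2 ^ 2 by norm_num, Real.log_pow]; norm_num
    have h9 := Real.log_two_gt_d9
    have h10 : Real.pi ≤ 3.15 := Real.pi_lt_d2.le
    rw [h8]
    nlinarith
  have hE : Real.exp (-(Real.pi * Y)) ≤ Real.exp (-(Real.pi * Y - Y ^ 2 / (N - 2))) := by
    apply Real.exp_le_exp.2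
    have : 0 ≤ Y ^ 2 / ((N:ℝ) - 2) := div_nonneg (by positivity) (by linarith)
    linarith
  have hf0 : (0:ℝ) < ((2 * N - 1).factorial : ℝ) := by exact_mod_cast Nat.factorial_pos _
  have h11 : ((N.factorial : ℝ)) ^ 2 ≤ Real.exp (-(Real.pi * Y)) * (4 * N ^ 2 * ((2 * N - 1).factorial : ℝ)) := by
    rw [Real.exp_neg, inv_mul_eq_div, le_div_iff₀ (Real.exp_pos _)]
    calc ((N.factorial : ℝ)) ^ 2 * Real.exp (Real.pi * Y) ≤ ((N.factorial : ℝ)) ^ 2 * 4 ^ N :=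
          mul_le_mul_of_nonneg_left hexp (by positivity)
      _ = 4 ^ N * ((N.factorial : ℝ)) ^ 2 := by ring
      _ ≤ _ := h1
  refine h11.trans ?_
  have h12 : (13 * (N:ℝ) ^ 3 / κ) * Real.exp (-(Real.pi * Y - Y ^ 2 / (N - 2))) *
      (κ * ((2 * N - 1).factorial : ℝ)) =
      Real.exp (-(Real.pi * Y - Y ^ 2 / (N - 2))) * (13 * N ^ 3 * ((2 * N - 1).factorial : ℝ)) := by
    field_simp
  rw [h12]
  apply mul_le_mul hE _ (by positivity) (by positivity)
  apply mul_le_mul_of_nonneg_right _ hf0.le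
  have : (N:ℝ) ^ 3 = N ^ 2 * N := by ring
  rw [this]
  nlinarith [sq_nonneg (N:ℝ)]

end H855R2.LH
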