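import Mathlib
import Pool.Agent.H855R2.LH.LSamp

open Complex Filter Topology Set Finset

namespace H855R2.LH

/-- the set of all nodes -/
noncomputable def allN (N : ℕ) (F : ℤ → Finset ℝ) : Finset ℂ :=
  (Finset.Ico (-(N : ℤ)) N).biUnion (fun j => (F j).image (fun x : ℝ => (x : ℂ)))

theorem mem_allN {N : ℕ} {F : ℤ → Finset ℝ} {a : ℂ} :
    a ∈ allN N F ↔ ∃ j ∈ Finset.Ico (-(N : ℤ)) N, ∃ x ∈ F j, (x : ℂ) = a := by
  simp [allN]

theorem cell_lt {N n : ℕ} {κ s : ℝ} (hκ : 0 < κ) {F : ℤ → Finset ℝ} (hF : Nodes N n κ s F)
    {i j : ℤ} (hi : i ∈ Finset.Ico (-(N : ℤ)) N) (hj : j ∈ Finset.Ico (-(N : ℤ)) N) (hij : i < j)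
    {x y : ℝ} (hx : x ∈ F i) (hy : y ∈ F j) : (j : ℝ) - i - 1 + 2 * κ ≤ y - x := by
  have h1 := hF.mem i hi x hx
  have h2 := hF.mem j hj y hy
  linarith [h1.2, h2.1]

theorem cell_ne {N n : ℕ} {κ s : ℝ} (hκ : 0 < κ) {F : ℤ → Finset ℝ} (hF : Nodes N n κ s F)
    {i j : ℤ} (hi : i ∈ Finset.Ico (-(N : ℤ)) N) (hj : j ∈ Finset.Ico (-(N : ℤ)) N) (hij : i ≠ j)
    {x y : ℝ} (hx : x ∈ F i) (hy : y ∈ F j) : x ≠ y := by
  rcases lt_or_gt_of_ne hij with h | h
  · have h1 := cell_lt hκ hF hi hj h hx hy
    have h2 : ((i : ℝ) + 1) ≤ j := by exact_mod_cast h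
    intro h3
    rw [h3] at h1
    linarith
  · have h1 := cell_lt hκ hF hj hi h hy hx
    have h2 : ((j : ℝ) + 1) ≤ i := by exact_mod_cast h
    intro h3
    rw [h3] at h1
    linarith

theorem prod_allN {N n : ℕ} {κ s : ℝ} (hκ : 0 < κ) {F : ℤ → Finset ℝ} (hF : Nodes N n κ s F)
    (g : ℂ → ℝ) : ∏ a ∈ allN N F, g a = ∏ j ∈ Finset.Ico (-(N : ℤ)) N, ∏ x ∈ F j, g (x : ℂ) := by
  classical
  unfold allN
  rw [Finset.prod_biUnion]
  · apply Finset.prod_congr rfl
    intro j _
    rw [Finset.prod_image (fun a _ b _ h => Complex.ofReal_injective h)]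
  · intro i hi j hj hij
    rw [Function.onFun, Finset.disjoint_left]
    intro a ha hb
    obtain ⟨x, hx, rfl⟩ := Finset.mem_image.1 ha
    obtain ⟨y, hy, hxy⟩ := Finset.mem_image.1 hb
    exact cell_ne hκ hF hi hj hij hx hy (Complex.ofReal_injective hxy).symm

theorem card_allN {N n : ℕ} {κ s : ℝ} {F : ℤ → Finset ℝ} (hF : Nodes N n κ s F) :
    (allN N F).card ≤ 2 * N * n := by
  unfold allN
  refine Finset.card_biUnion_le.trans ?_
  calc ∑ j ∈ Finset.Ico (-(N : ℤ)) N, ((F j).image (fun x : ℝ => (x : ℂ))).card
      ≤ ∑ j ∈ Finset.Ico (-(N : ℤ)) N, n := by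
        apply Finset.sum_le_sum
        intro j hj
        exact Finset.card_image_le.trans (hF.card j hj).le
    _ = 2 * N * n := by
        rw [Finset.sum_const, Int.card_Ico, smul_eq_mul]
        congr 1
        omega

theorem norm_sub_real (z : ℂ) (x : ℝ) : ‖z - x‖ = Real.sqrt ((z.re - x) ^ 2 + z.im ^ 2) := by
  rw [Complex.norm_eq_sqrt_sq_add_sq]
  simp

/-- upper bound for the product of the absolute values of the nodes, `b_j` the bound in cell `j` -/
theorem prod_upper {N : ℕ} :
    ∏ j ∈ Finset.Ico (-(N : ℤ)) N, (if 0 ≤ j then (j : ℝ) + 1 else -(j : ℝ)) =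
      ((N.factorial : ℝ)) ^ 2 := by
  classical
  have hsplit : Finset.Ico (-(N : ℤ)) N = Finset.Ico (0 : ℤ) N ∪ Finset.Ico (-(N : ℤ)) 0 := by
    ext j
    simp only [Finset.mem_Ico, Finset.mem_union]
    omega
  have hdisj : Disjoint (Finset.Ico (0 : ℤ) (N : ℤ)) (Finset.Ico (-(N : ℤ)) 0) := by
    rw [Finset.disjoint_left]
    intro j
    simp only [Finset.mem_Ico]
    omega
  rw [hsplit, Finset.prod_union hdisj, sq]
  congr 1
  · rw [← Finset.prod_range_add_one_eq_factorial]
    push_cast
    symm
    apply Finset.prod_bij (fun (i : ℕ) _ => (i : ℤ))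
    · intro i hi
      simp only [Finset.mem_range] at hi
      simp only [Finset.mem_Ico]
      omega
    · intro i _ j _ h
      omega
    · intro j hj
      simp only [Finset.mem_Ico] at hj
      refine ⟨j.toNat, ?_, ?_⟩
      · simp only [Finset.mem_range]; omega
      · omega
    · intro i _
      rw [if_pos (by omega)]
      push_cast
      ring
  · rw [← Finset.prod_range_add_one_eq_factorial]
    push_cast
    symm
    apply Finset.prod_bij (fun (i : ℕ) _ => -(i : ℤ) - 1)
    · intro i hi
      simp only [Finset.mem_range] at hi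
      simp only [Finset.mem_Ico]
      omega
    · intro i _ j _ h
      omega
    · intro j hj
      simp only [Finset.mem_Ico] at hj
      refine ⟨(-j - 1).toNat, ?_, ?_⟩
      · simp only [Finset.mem_range]; omega
      · omega
    · intro i _
      rw [if_neg (by omega)]
      push_cast
      ring

/-- **local sampling inequality** -/
theorem local_sampling {N n : ℕ} {κ s Y A B : ℝ} (hN : 3 ≤ N) (hn : 1 ≤ n) (hκ : 0 < κ)
    (hκ2 : κ < 1 / 2) (hs : 0 < s) (hY : 1 ≤ Y) (hYN : 3 * Y ≤ N) {F : ℤ → Finset ℝ}
    (hF : Nodes N n κ s F) {U : Set ℂ} (hU : IsOpen U)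
    (hUR : {z : ℂ | |z.re| ≤ N ∧ |z.im| ≤ Y} ⊆ U) {f : ℂ → ℂ} (hf : DifferentiableOn ℂ f U)
    (hA : ∀ z : ℂ, |z.re| ≤ N → |z.im| ≤ Y → ‖f z‖ ≤ A)
    (hB : ∀ j ∈ Finset.Ico (-(N : ℤ)) N, ∀ x ∈ F j, ‖f x‖ ≤ B) (hB0 : 0 ≤ B) :
    ‖f 0‖ ≤ A * ((13 * N ^ 3 / κ) * Real.exp (-(Real.pi * Y - Y ^ 2 / (N - 2)))) ^ n +
      (2 * N * n) * B * ((N ^ 3 / κ ^ 2) ^ n / (s ^ (n - 1) * ((n - 1).factorial : ℝ) / 2 ^ (n - 1)))
        * (1 + 1 / κ) := by
  classical
  have hN3 : (3:ℝ) ≤ N := by exact_mod_cast hN
  have hN0 : (0:ℝ) < N := by linarith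
  have hκ1 : κ ≤ 1 := by linarith
  have hA0 : 0 ≤ A := (norm_nonneg _).trans (hA 0 (by simp) (by simp; linarith))
  set E1 : ℝ := (13 * N ^ 3 / κ) * Real.exp (-(Real.pi * Y - Y ^ 2 / (N - 2))) with hE1
  have hE1pos : 0 < E1 := by rw [hE1]; positivity
  set Ds : ℝ := s ^ (n - 1) * ((n - 1).factorial : ℝ) / 2 ^ (n - 1) with hDs
  have hDspos : 0 < Ds := by
    rw [hDs]
    have : (0:ℝ) < ((n - 1).factorial : ℝ) := by exact_mod_cast Nat.factorial_pos _
    positivity
  set φ1 : ℕ → ℝ := fun i => Real.sqrt ((i : ℝ) ^ 2 + Y ^ 2) with hφ1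
  set φ2 : ℕ → ℝ := fun i => max κ (i : ℝ) with hφ2
  have hφ1m : Monotone φ1 := by
    intro a b hab
    rw [hφ1]
    apply Real.sqrt_le_sqrt
    have : (a : ℝ) ≤ b := by exact_mod_cast hab
    have : (0:ℝ) ≤ a := Nat.cast_nonneg a
    nlinarith
  have hφ1p : ∀ i, 0 < φ1 i := fun i => Real.sqrt_pos.2 (by positivity)
  have hφ2m : Monotone φ2 := by
    intro a b hab
    rw [hφ2]
    have : (a : ℝ) ≤ b := by exact_mod_cast hab
    exact max_le_max le_rfl this
  have hφ2p : ∀ i, 0 < φ2 i := fun i => lt_max_of_lt_left hκ
  have hfr2 : (∏ i ∈ range (N - 1), φ2 i) * (∏ i ∈ range N, φ2 i) =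
      κ ^ 2 * (((N - 2).factorial : ℝ) * ((N - 1).factorial : ℝ)) := by
    have e1 : N - 1 = (N - 2) + 1 := by omega
    have e2 : N = (N - 1) + 1 := by omega
    rw [e1, hφ2]
    simp only
    rw [prod_max hκ hκ1]
    have : ∏ i ∈ range N, max κ (i : ℝ) = κ * ((N - 1).factorial : ℝ) := by
      conv_lhs => rw [e2]
      exact prod_max hκ hκ1 (N - 1)
    rw [this, ← e1]
    ring
  set R : ℝ := ((N.factorial : ℝ) ^ 2) ^ n with hR
  have hRpos : 0 < R := by
    rw [hR]
    have : (0:ℝ) < (N.factorial : ℝ) := by exact_mod_cast Nat.factorial_pos _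
    positivity
  set D : ℝ := Ds * (κ ^ 2 * (((N - 2).factorial : ℝ) * ((N - 1).factorial : ℝ))) ^ n with hD
  have hDpos : 0 < D := by
    rw [hD]
    have h1 : (0:ℝ) < ((N - 2).factorial : ℝ) := by exact_mod_cast Nat.factorial_pos _
    have h2 : (0:ℝ) < ((N - 1).factorial : ℝ) := by exact_mod_cast Nat.factorial_pos _
    positivity
  set W : Set ℂ := Set.Ioo (-(N:ℝ)) N ×ℂ Set.Ioo (-Y) Y with hW
  have hNne : -(N:ℝ) ≠ N := by linarith
  have hYne : -Y ≠ Y := by linarith
  have hWcl : closure W = Set.Icc (-(N:ℝ)) N ×ℂ Set.Icc (-Y) Y := by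
    rw [hW, closure_reProdIm, closure_Ioo hNne, closure_Ioo hYne]
  have hWfr : ∀ z ∈ frontier W, (|z.re| ≤ N ∧ |z.im| = Y) ∨ (|z.re| = N ∧ |z.im| ≤ Y) := by
    intro z hz
    rw [hW, frontier_reProdIm, frontier_Ioo (by linarith), frontier_Ioo (by linarith),
      closure_Ioo hNne, closure_Ioo hYne] at hz
    rcases hz with hz | hz
    · rw [mem_reProdIm] at hz
      left
      refine ⟨abs_le.2 hz.1, ?_⟩
      rcases hz.2 with h | h
      · rw [h, abs_neg, abs_of_pos (by linarith)]
      · have h' : z.im = Y := h
        rw [h', abs_of_pos (by linarith)]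
    · rw [mem_reProdIm] at hz
      right
      refine ⟨?_, abs_le.2 hz.2⟩
      rcases hz.1 with h | h
      · rw [h, abs_neg, abs_of_pos (by linarith)]
      · have h' : z.re = N := h
        rw [h', abs_of_pos (by linarith)]
  have hnode : ∀ j ∈ Finset.Ico (-(N : ℤ)) N, ∀ x ∈ F j, -(N:ℝ) + κ ≤ x ∧ x ≤ N - κ := by
    intro j hj x hx
    have h1 := hF.mem j hj x hx
    rw [Finset.mem_Ico] at hj
    have h2 : -(N:ℝ) ≤ j := by exact_mod_cast hj.1
    have h3 : (j:ℝ) + 1 ≤ N := by exact_mod_cast hj.2
    constructor <;> linarith [h1.1, h1.2]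
  have hWmem : ∀ z : ℂ, z ∈ W ↔ (-(N:ℝ) < z.re ∧ z.re < N) ∧ (-Y < z.im ∧ z.im < Y) := by
    intro z; rw [hW, mem_reProdIm]; rfl
  have key := interp_bound (U := U) (W := W) hU (isOpen_Ioo.reProdIm isOpen_Ioo)
    ((Metric.isBounded_Ioo _ _).reProdIm (Metric.isBounded_Ioo _ _))
    (by
      rw [hWcl]
      intro z hz
      rw [mem_reProdIm] at hz
      exact hUR ⟨abs_le.2 hz.1, abs_le.2 hz.2⟩) (allN N F)
    (by
      intro a ha
      obtain ⟨j, hj, x, hx, rfl⟩ := mem_allN.1 ha
      have := hnode j hj x hx
      rw [hWmem]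
      simp
      exact ⟨⟨by linarith [this.1], by linarith [this.2]⟩, by linarith⟩)
    hf (x := 0) (by rw [hWmem]; simp; exact ⟨by linarith, by linarith⟩)
    (A := A) (V := R / E1 ^ n) (D := D) (B := B) (R := R) (κ := κ)
    (by positivity) hDpos hκ hRpos.le hB0 hA0
    (by
      intro z hz
      rcases hWfr z hz with h | h
      · exact hA z h.1 h.2.le
      · exact hA z h.1.le h.2)
    (by
      intro z hz
      rw [prod_allN hκ hF (fun a => ‖z - a‖), hR, div_le_iff₀ (by positivity)]
      rcases (hWfr z hz).symm with h | h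
      · -- vertical
        have hcells : (∏ i ∈ range (2 * N), φ2 i) ^ n ≤
            ∏ j ∈ Finset.Ico (-(N : ℤ)) N, ∏ x ∈ F j, ‖z - (x : ℂ)‖ := by
          apply cells_lower_end hF φ2 hφ2p (fun _ x => ‖z - (x : ℂ)‖)
          have hre : z.re = N ∨ z.re = -N := by
            rcases le_total 0 z.re with h0 | h0
            · left; rw [← h.1, abs_of_nonneg h0]
            · right; rw [← h.1, abs_of_nonpos h0]; ring
          rcases hre with hre | hre
          · left
            intro j hj x hx
            have h1 := hF.mem j hj x hx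
            have h2 := hnode j hj x hx
            rw [Finset.mem_Ico] at hj
            have h3 : |z.re - x| ≤ ‖z - (x:ℂ)‖ := by
              have := Complex.abs_re_le_norm (z - (x:ℂ))
              simpa using this
            refine le_trans ?_ h3
            rw [hre, abs_of_nonneg (by linarith [h2.2])]
            apply max_le
            · linarith [h2.2]
            · have h4 : ((((N : ℤ) - 1 - j).toNat : ℤ) : ℝ) = ((N : ℤ) - 1 - j : ℤ) := by
                congr 1
                omega
              have h5 : ((((N : ℤ) - 1 - j).toNat : ℕ) : ℝ) = (N : ℝ) - 1 - j := by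
                rw [← Int.cast_natCast, h4]; push_cast; ring
              rw [h5]
              linarith [h1.2]
          · right
            intro j hj x hx
            have h1 := hF.mem j hj x hx
            have h2 := hnode j hj x hx
            rw [Finset.mem_Ico] at hj
            have h3 : |z.re - x| ≤ ‖z - (x:ℂ)‖ := by
              have := Complex.abs_re_le_norm (z - (x:ℂ))
              simpa using this
            refine le_trans ?_ h3
            rw [hre, abs_of_nonpos (by linarith [h2.1])]
            apply max_le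
            · linarith [h2.1]
            · have h4 : (((j + N).toNat : ℤ) : ℝ) = (j + N : ℤ) := by
                congr 1
                omega
              have h5 : (((j + N).toNat : ℕ) : ℝ) = (j : ℝ) + N := by
                rw [← Int.cast_natCast, h4]; push_cast; ring
              rw [h5]
              linarith [h1.1]
        have hv := vert_bound hN hY hκ hκ1 hYN
        have e : ∏ i ∈ range (2 * N), φ2 i = κ * ((2 * N - 1).factorial : ℝ) := by
          have e2 : 2 * N = (2 * N - 1) + 1 := by omega
          conv_lhs => rw [e2]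
          exact prod_max hκ hκ1 (2 * N - 1)
        rw [e] at hcells
        calc ((N.factorial : ℝ) ^ 2) ^ n ≤ (E1 * (κ * ((2 * N - 1).factorial : ℝ))) ^ n :=
              pow_le_pow_left₀ (by positivity) hv n
          _ = (κ * ((2 * N - 1).factorial : ℝ)) ^ n * E1 ^ n := by rw [mul_pow]; ring
          _ ≤ _ := mul_le_mul_of_nonneg_right hcells (by positivity)
      · -- horizontal
        rcases eq_or_lt_of_le h.1 with h0 | h0
        · -- corner
          have hcells : (∏ i ∈ range (2 * N), φ2 i) ^ n ≤
              ∏ j ∈ Finset.Ico (-(N : ℤ)) N, ∏ x ∈ F j, ‖z - (x : ℂ)‖ := by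
            apply cells_lower_end hF φ2 hφ2p (fun _ x => ‖z - (x : ℂ)‖)
            have hre : z.re = N ∨ z.re = -N := by
              rcases le_total 0 z.re with h0' | h0'
              · left; rw [← h0, abs_of_nonneg h0']
              · right; rw [← h0, abs_of_nonpos h0']; ring
            rcases hre with hre | hre
            · left
              intro j hj x hx
              have h1 := hF.mem j hj x hx
              have h2 := hnode j hj x hx
              rw [Finset.mem_Ico] at hj
              have h3 : |z.re - x| ≤ ‖z - (x:ℂ)‖ := by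
                have := Complex.abs_re_le_norm (z - (x:ℂ))
                simpa using this
              refine le_trans ?_ h3
              rw [hre, abs_of_nonneg (by linarith [h2.2])]
              apply max_le
              · linarith [h2.2]
              · have h4 : ((((N : ℤ) - 1 - j).toNat : ℤ) : ℝ) = ((N : ℤ) - 1 - j : ℤ) := by
                  congr 1
                  omega
                have h5 : ((((N : ℤ) - 1 - j).toNat : ℕ) : ℝ) = (N : ℝ) - 1 - j := by
                  rw [← Int.cast_natCast, h4]; push_cast; ring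
                rw [h5]
                linarith [h1.2]
            · right
              intro j hj x hx
              have h1 := hF.mem j hj x hx
              have h2 := hnode j hj x hx
              rw [Finset.mem_Ico] at hj
              have h3 : |z.re - x| ≤ ‖z - (x:ℂ)‖ := by
                have := Complex.abs_re_le_norm (z - (x:ℂ))
                simpa using this
              refine le_trans ?_ h3
              rw [hre, abs_of_nonpos (by linarith [h2.1])]
              apply max_le
              · linarith [h2.1]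
              · have h4 : (((j + N).toNat : ℤ) : ℝ) = (j + N : ℤ) := by
                  congr 1
                  omega
                have h5 : (((j + N).toNat : ℕ) : ℝ) = (j : ℝ) + N := by
                  rw [← Int.cast_natCast, h4]; push_cast; ring
                rw [h5]
                linarith [h1.1]
          have hv := vert_bound hN hY hκ hκ1 hYN
          have e : ∏ i ∈ range (2 * N), φ2 i = κ * ((2 * N - 1).factorial : ℝ) := by
            have e2 : 2 * N = (2 * N - 1) + 1 := by omega
            conv_lhs => rw [e2]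
            exact prod_max hκ hκ1 (2 * N - 1)
          rw [e] at hcells
          calc ((N.factorial : ℝ) ^ 2) ^ n ≤ (E1 * (κ * ((2 * N - 1).factorial : ℝ))) ^ n :=
                pow_le_pow_left₀ (by positivity) hv n
            _ = (κ * ((2 * N - 1).factorial : ℝ)) ^ n * E1 ^ n := by rw [mul_pow]; ring
            _ ≤ _ := mul_le_mul_of_nonneg_right hcells (by positivity)
        · obtain ⟨h0a, h0b⟩ := abs_lt.1 h0
          set m : ℤ := ⌊z.re⌋ with hm
          have hm1 : (m : ℝ) ≤ z.re := Int.floor_le _
          have hm2 : z.re < m + 1 := Int.lt_floor_add_one _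
          have hmI : m ∈ Finset.Ico (-(N : ℤ)) N := by
            rw [Finset.mem_Ico]
            constructor
            · rw [hm, Int.le_floor]; push_cast; linarith
            · have : (m : ℝ) < N := by linarith
              exact_mod_cast this
          have him : z.im ^ 2 = Y ^ 2 := by rw [← sq_abs, h.2]
          have hcells : Y ^ n * ((∏ i ∈ range (N - 1), φ1 i) * (∏ i ∈ range N, φ1 i)) ^ n ≤
              ∏ j ∈ Finset.Ico (-(N : ℤ)) N, ∏ x ∈ F j, ‖z - (x : ℂ)‖ := by
            apply cells_lower hF φ1 hφ1m hφ1p hmI (fun _ x => ‖z - (x : ℂ)‖) (by positivity)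
            · rw [← hF.card m hmI, ← Finset.prod_const]
              apply Finset.prod_le_prod
              · intro x _; linarith
              · intro x _
                have := Complex.abs_im_le_norm (z - (x:ℂ))
                simp only [Complex.sub_im, Complex.ofReal_im, sub_zero] at this
                rw [h.2] at this
                exact this
            · intro j hj hmj x hx
              have h1 := hF.mem j hj x hx
              rw [norm_sub_real, him, hφ1]
              apply Real.sqrt_le_sqrt
              have h4 : (((j - m - 1).toNat : ℤ) : ℝ) = (j - m - 1 : ℤ) := by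
                congr 1
                omega
              have h5 : (((j - m - 1).toNat : ℕ) : ℝ) = (j : ℝ) - m - 1 := by
                rw [← Int.cast_natCast, h4]; push_cast; ring
              have h6 : (m : ℝ) + 1 ≤ j := by exact_mod_cast hmj
              rw [h5]
              nlinarith [h1.1]
            · intro j hj hmj x hx
              have h1 := hF.mem j hj x hx
              rw [norm_sub_real, him, hφ1]
              apply Real.sqrt_le_sqrt
              have h4 : (((m - j - 1).toNat : ℤ) : ℝ) = (m - j - 1 : ℤ) := by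
                congr 1
                omega
              have h5 : (((m - j - 1).toNat : ℕ) : ℝ) = (m : ℝ) - j - 1 := by
                rw [← Int.cast_natCast, h4]; push_cast; ring
              have h6 : (j : ℝ) + 1 ≤ m := by exact_mod_cast hmj
              rw [h5]
              nlinarith [h1.2]
          have hh := horiz_bound hN hY hκ hκ1
          calc ((N.factorial : ℝ) ^ 2) ^ n
              ≤ (E1 * (Y * ((∏ i ∈ range (N - 1), φ1 i) * (∏ i ∈ range N, φ1 i)))) ^ n :=
                pow_le_pow_left₀ (by positivity) hh n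
            _ = Y ^ n * ((∏ i ∈ range (N - 1), φ1 i) * (∏ i ∈ range N, φ1 i)) ^ n * E1 ^ n := by
                rw [mul_pow, mul_pow]; ring
            _ ≤ _ := mul_le_mul_of_nonneg_right hcells (by positivity))
    (by
      intro a ha
      obtain ⟨j, hj, x, hx, rfl⟩ := mem_allN.1 ha
      exact hB j hj x hx)
    (by
      intro a ha
      obtain ⟨k, hk, y, hy, rfl⟩ := mem_allN.1 ha
      set g : ℂ → ℝ := Function.update (fun b => ‖(y:ℂ) - b‖) (y:ℂ) 1 with hg
      have hgy : g y = 1 := by rw [hg, Function.update_self]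
      have hgne : ∀ b : ℂ, b ≠ y → g b = ‖(y:ℂ) - b‖ := by
        intro b hb; rw [hg, Function.update_of_ne hb]
      have e1 : ∏ b ∈ (allN N F).erase y, ‖(y:ℂ) - b‖ = ∏ b ∈ allN N F, g b := by
        rw [← Finset.prod_erase (allN N F) hgy]
        apply Finset.prod_congr rfl
        intro b hb
        exact (hgne b (Finset.mem_erase.1 hb).1).symm
      rw [e1, prod_allN hκ hF g, hD, ← hfr2]
      apply cells_lower hF φ2 hφ2m hφ2p hk (fun _ x => g x) hDspos.le
      · have e2 : ∏ x ∈ F k, g (x : ℂ) = ∏ x ∈ (F k).erase y, |y - x| := by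
          rw [← Finset.prod_erase (F k) (f := fun x : ℝ => g (x : ℂ)) (a := y) hgy]
          apply Finset.prod_congr rfl
          intro b hb
          have hb' : (b : ℂ) ≠ y := fun h => (Finset.mem_erase.1 hb).1 (Complex.ofReal_injective h)
          rw [hgne _ hb', ← Complex.ofReal_sub, Complex.norm_real, Real.norm_eq_abs]
        rw [e2, hDs]
        have := sep_prod hs (F k) (hF.sep k hk) hy
        rw [hF.card k hk] at this
        exact this
      · intro j hj hkj x hx
        have h1 := cell_lt hκ hF hk hj hkj hy hx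
        have hne : (x:ℂ) ≠ y := fun h => cell_ne hκ hF hk hj hkj.ne hy hx (Complex.ofReal_injective h).symm
        have h6 : (k : ℝ) + 1 ≤ j := by exact_mod_cast hkj
        rw [hgne _ hne, ← Complex.ofReal_sub, Complex.norm_real, Real.norm_eq_abs, abs_sub_comm,
          abs_of_nonneg (by linarith)]
        apply max_le
        · linarith
        · have h4 : (((j - k - 1).toNat : ℤ) : ℝ) = (j - k - 1 : ℤ) := by
            congr 1
            omega
          have h5 : (((j - k - 1).toNat : ℕ) : ℝ) = (j : ℝ) - k - 1 := by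
            rw [← Int.cast_natCast, h4]; push_cast; ring
          rw [h5]
          linarith
      · intro j hj hkj x hx
        have h1 := cell_lt hκ hF hj hk hkj hx hy
        have hne : (x:ℂ) ≠ y := fun h => cell_ne hκ hF hk hj hkj.ne' hy hx (Complex.ofReal_injective h).symm
        have h6 : (j : ℝ) + 1 ≤ k := by exact_mod_cast hkj
        rw [hgne _ hne, ← Complex.ofReal_sub, Complex.norm_real, Real.norm_eq_abs,
          abs_of_nonneg (by linarith)]
        apply max_le
        · linarith
        · have h4 : (((k - j - 1).toNat : ℤ) : ℝ) = (k - j - 1 : ℤ) := by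
            congr 1
            omega
          have h5 : (((k - j - 1).toNat : ℕ) : ℝ) = (k : ℝ) - j - 1 := by
            rw [← Int.cast_natCast, h4]; push_cast; ring
          rw [h5]
          linarith)
    (by
      intro a ha z hz
      obtain ⟨j, hj, x, hx, rfl⟩ := mem_allN.1 ha
      have h2 := hnode j hj x hx
      rcases hWfr z hz with h | h
      · have := Complex.abs_im_le_norm (z - (x:ℂ))
        simp only [Complex.sub_im, Complex.ofReal_im, sub_zero] at this
        rw [h.2] at this
        linarith
      · have h3 : |z.re - x| ≤ ‖z - (x:ℂ)‖ := by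
          have := Complex.abs_re_le_norm (z - (x:ℂ))
          simpa using this
        refine le_trans ?_ h3
        rcases le_total 0 z.re with h0 | h0
        · have hre : z.re = N := by rw [← h.1, abs_of_nonneg h0]
          rw [hre, abs_of_nonneg (by linarith [h2.2])]
          linarith [h2.2]
        · have hre : z.re = -N := by rw [← h.1, abs_of_nonpos h0]; ring
          rw [hre, abs_of_nonpos (by linarith [h2.1])]
          linarith [h2.1])
    (by
      rw [prod_allN hκ hF (fun a => ‖0 - a‖), hR, ← prod_upper, ← Finset.prod_pow]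
      apply Finset.prod_le_prod
      · intro j _; exact Finset.prod_nonneg fun _ _ => norm_nonneg _
      · intro j hj
        rw [← hF.card j hj, ← Finset.prod_const]
        apply Finset.prod_le_prod
        · intro x _; exact norm_nonneg _
        · intro x hx
          have h1 := hF.mem j hj x hx
          rw [zero_sub, norm_neg, Complex.norm_real, Real.norm_eq_abs]
          split_ifs with h0
          · have : (0:ℝ) ≤ j := by exact_mod_cast h0
            rw [abs_of_nonneg (by linarith [h1.1])]
            linarith [h1.2]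
          · have : (j:ℝ) + 1 ≤ 0 := by
              have : j + 1 ≤ 0 := by omega
              exact_mod_cast this
            rw [abs_of_nonpos (by linarith [h1.2])]
            linarith [h1.1])
    (by
      intro a ha
      obtain ⟨k, hk, y, hy, rfl⟩ := mem_allN.1 ha
      set g : ℂ → ℝ := Function.update (fun b => ‖(0:ℂ) - b‖) (y:ℂ) 1 with hg
      have hgy : g y = 1 := by rw [hg, Function.update_self]
      have hgne : ∀ b : ℂ, b ≠ y → g b = ‖(0:ℂ) - b‖ := by
        intro b hb; rw [hg, Function.update_of_ne hb]
      have e1 : ∏ b ∈ (allN N F).erase y, ‖(0:ℂ) - b‖ = ∏ b ∈ allN N F, g b := by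
        rw [← Finset.prod_erase (allN N F) hgy]
        apply Finset.prod_congr rfl
        intro b hb
        exact (hgne b (Finset.mem_erase.1 hb).1).symm
      have hg0 : ∀ b, 0 ≤ g b := by
        intro b
        by_cases hb : b = y
        · rw [hb, hgy]; norm_num
        · rw [hgne b hb]; exact norm_nonneg _
      rw [e1, prod_allN hκ hF g, hR, ← prod_upper, ← Finset.prod_pow]
      apply Finset.prod_le_prod
      · intro j _; exact Finset.prod_nonneg fun _ _ => hg0 _
      · intro j hj
        rw [← hF.card j hj, ← Finset.prod_const]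
        apply Finset.prod_le_prod
        · intro x _; exact hg0 _
        · intro x hx
          have h1 := hF.mem j hj x hx
          by_cases hb : (x:ℂ) = y
          · rw [hb, hgy]
            split_ifs with h0
            · have : (0:ℝ) ≤ j := by exact_mod_cast h0
              linarith
            · have : (j:ℝ) + 1 ≤ 0 := by
                have : j + 1 ≤ 0 := by omega
                exact_mod_cast this
              linarith
          · rw [hgne _ hb, zero_sub, norm_neg, Complex.norm_real, Real.norm_eq_abs]
            split_ifs with h0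
            · have : (0:ℝ) ≤ j := by exact_mod_cast h0
              rw [abs_of_nonneg (by linarith [h1.1])]
              linarith [h1.2]
            · have : (j:ℝ) + 1 ≤ 0 := by
                have : j + 1 ≤ 0 := by omega
                exact_mod_cast this
              rw [abs_of_nonpos (by linarith [h1.2])]
              linarith [h1.1])
  refine key.trans ?_
  have hE1n : (0:ℝ) < E1 ^ n := by positivity
  have h1 : A * R / (R / E1 ^ n) = A * E1 ^ n := by
    field_simp
  rw [h1]
  refine add_le_add le_rfl (mul_le_mul_of_nonneg_right ?_ (by positivity))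
  have hcard : ((allN N F).card : ℝ) ≤ 2 * N * n := by exact_mod_cast card_allN hF
  have hRD : R / D ≤ (N ^ 3 / κ ^ 2) ^ n / Ds := by
    have hf1 : (0:ℝ) < ((N - 2).factorial : ℝ) := by exact_mod_cast Nat.factorial_pos _
    have hf2 : (0:ℝ) < ((N - 1).factorial : ℝ) := by exact_mod_cast Nat.factorial_pos _
    have h2 : ((N.factorial : ℝ)) ^ 2 ≤ (N ^ 3 / κ ^ 2) *
        (κ ^ 2 * (((N - 2).factorial : ℝ) * ((N - 1).factorial : ℝ))) := by
      have h3 : (N.factorial : ℝ) = N * ((N - 1).factorial : ℝ) := by
        have := Nat.mul_factorial_pred (n := N) (by omega)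
        rw [← this]; push_cast; ring
      have h4 : ((N - 1).factorial : ℝ) = ((N:ℝ) - 1) * ((N - 2).factorial : ℝ) := by
        have h5 := Nat.mul_factorial_pred (n := N - 1) (by omega)
        rw [show N - 1 - 1 = N - 2 by omega] at h5
        rw [← h5]; push_cast
        rw [Nat.cast_sub (by omega)]
        push_cast; ring
      have h6 : (N ^ 3 / κ ^ 2) * (κ ^ 2 * (((N - 2).factorial : ℝ) * ((N - 1).factorial : ℝ))) =
          N ^ 3 * (((N - 2).factorial : ℝ) * ((N - 1).factorial : ℝ)) := by
        field_simp
      rw [h6]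
      calc ((N.factorial : ℝ)) ^ 2 = N ^ 2 * ((N:ℝ) - 1) * (((N - 2).factorial : ℝ) * ((N - 1).factorial : ℝ)) := by
            rw [h3]
            nth_rewrite 1 [sq]
            nth_rewrite 2 [h4]
            ring
        _ ≤ N ^ 3 * (((N - 2).factorial : ℝ) * ((N - 1).factorial : ℝ)) := by
            apply mul_le_mul_of_nonneg_right _ (by positivity)
            have : (N:ℝ) ^ 3 = N ^ 2 * N := by ring
            rw [this]
            apply mul_le_mul_of_nonneg_left _ (by positivity)
            linarith
    rw [hR, hD, div_le_div_iff₀ (by positivity) hDspos]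
    calc ((N.factorial : ℝ) ^ 2) ^ n * Ds ≤ ((N ^ 3 / κ ^ 2) *
        (κ ^ 2 * (((N - 2).factorial : ℝ) * ((N - 1).factorial : ℝ)))) ^ n * Ds := by
          apply mul_le_mul_of_nonneg_right _ hDspos.le
          exact pow_le_pow_left₀ (by positivity) h2 n
      _ = _ := by rw [mul_pow]; ring
  calc ((allN N F).card : ℝ) * B * (R / D) ≤ (2 * N * n) * B * (R / D) := by
        gcongr
    _ ≤ _ := by
        gcongr

end H855R2.LH
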