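import Mathlib
import Pool.Agent.H388LH.Fin
import Pool.Agent.H345R2.Chi

open Complex Filter Topology Set Finset

namespace H855R2.LH

open Pool.Agent.H388LH

/-- `zeta` is bounded on a vertical line to the right of 1 -/
theorem zeta_right_bounded {σ : ℝ} (hσ : 1 < σ) :
    ∃ C : ℝ, 0 < C ∧ ∀ s : ℂ, s.re = σ → ‖riemannZeta s‖ ≤ C := by
  have hsum : Summable (fun n : ℕ => 1 / ((n : ℝ) + 1) ^ σ) := by
    have h1 := Real.summable_one_div_nat_rpow.2 hσ
    have h2 := (summable_nat_add_iff 1).2 h1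
    refine h2.congr (fun n => ?_)
    push_cast
    rfl
  refine ⟨∑' n : ℕ, 1 / ((n : ℝ) + 1) ^ σ + 1, ?_, ?_⟩
  · have : 0 ≤ ∑' n : ℕ, 1 / ((n : ℝ) + 1) ^ σ := tsum_nonneg fun n => by positivity
    linarith
  · intro s hs
    rw [zeta_eq_tsum_one_div_nat_add_one_cpow (by rw [hs]; exact hσ)]
    have hterm : ∀ n : ℕ, ‖1 / ((n : ℂ) + 1) ^ s‖ = 1 / ((n : ℝ) + 1) ^ σ := by
      intro n
      have h1 : ((n : ℂ) + 1) = (((n : ℝ) + 1 : ℝ) : ℂ) := by push_cast; ring
      rw [norm_div, norm_one, h1, Complex.norm_cpow_eq_rpow_re_of_pos (by positivity), hs]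
    have h3 : ‖∑' n : ℕ, 1 / ((n : ℂ) + 1) ^ s‖ ≤ ∑' n : ℕ, 1 / ((n : ℝ) + 1) ^ σ :=
      tsum_of_norm_bounded hsum.hasSum (fun n => (hterm n).le)
    linarith

/-- the comparison function -/
noncomputable def WW (M q : ℝ) (s : ℂ) : ℂ :=
  cexp (((M : ℂ) - q * (s - 1 / 2)) * Complex.log (-I * s))

theorem negIs_re (s : ℂ) : (-I * s).re = s.im := by simp

theorem negIs_im (s : ℂ) : (-I * s).im = -s.re := by simp

theorem negIs_norm (s : ℂ) : ‖-I * s‖ = ‖s‖ := by simp

theorem WW_diff (M q : ℝ) {s : ℂ} (hs : 0 < s.im) : DifferentiableAt ℂ (WW M q) s := by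
  unfold WW
  apply DifferentiableAt.cexp
  apply DifferentiableAt.mul (by fun_prop)
  apply DifferentiableAt.clog (by fun_prop)
  left
  rw [negIs_re]
  exact hs

theorem arg_bounds {s : ℂ} (h1 : 0 ≤ s.re) (h2 : 0 < s.im) :
    -(Real.pi / 2 * (s.re / ‖s‖)) ≤ (-I * s).arg ∧ (-I * s).arg ≤ 0 := by
  have hn : 0 < ‖s‖ := by
    apply norm_pos_iff.2
    intro h; rw [h] at h2; simp at h2
  have h3 : (-I * s).arg = -Real.arcsin (s.re / ‖s‖) := by
    rw [Complex.arg_of_re_nonneg (by rw [negIs_re]; exact h2.le), negIs_im, negIs_norm,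
      ← Real.arcsin_neg]
    congr 1
    ring
  have h4 : 0 ≤ s.re / ‖s‖ := by positivity
  have h5 : s.re / ‖s‖ ≤ 1 := by
    rw [div_le_one hn]
    exact Complex.re_le_norm s
  have h6 : 0 ≤ Real.arcsin (s.re / ‖s‖) := Real.arcsin_nonneg.2 h4
  have h7 := Real.mul_le_sin h6 (Real.arcsin_le_pi_div_two _)
  rw [Real.sin_arcsin (by linarith) h5] at h7
  have hpi := Real.pi_pos
  constructor
  · rw [h3]
    apply neg_le_neg
    have h8 : Real.pi / 2 * (2 / Real.pi * Real.arcsin (s.re / ‖s‖)) ≤ Real.pi / 2 * (s.re / ‖s‖) :=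
      mul_le_mul_of_nonneg_left h7 (by positivity)
    have h9 : Real.pi / 2 * (2 / Real.pi * Real.arcsin (s.re / ‖s‖)) = Real.arcsin (s.re / ‖s‖) := by
      field_simp
    linarith
  · rw [h3]; linarith

theorem WW_norm {M q : ℝ} (hq : 0 ≤ q) {s : ℂ} (h1 : 0 ≤ s.re) (h2 : 0 < s.im) :
    ‖s‖ ^ (M - q * (s.re - 1 / 2)) * Real.exp (-(q * (Real.pi / 2 * s.re))) ≤ ‖WW M q s‖ ∧
      ‖WW M q s‖ ≤ ‖s‖ ^ (M - q * (s.re - 1 / 2)) := by
  have hn : 0 < ‖s‖ := by
    apply norm_pos_iff.2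
    intro h; rw [h] at h2; simp at h2
  have h3 : ‖WW M q s‖ = ‖s‖ ^ (M - q * (s.re - 1 / 2)) * Real.exp (q * s.im * (-I * s).arg) := by
    unfold WW
    rw [Complex.norm_exp, Complex.mul_re, Complex.log_re, Complex.log_im, negIs_norm,
      Real.rpow_def_of_pos hn, ← Real.exp_add]
    congr 1
    have e1 : ((M : ℂ) - q * (s - 1 / 2)).re = M - q * (s.re - 1 / 2) := by
      simp
    have e2 : ((M : ℂ) - q * (s - 1 / 2)).im = -(q * s.im) := by
      simp
    rw [e1, e2]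
    ring
  obtain ⟨h4, h5⟩ := arg_bounds h1 h2
  have hp : 0 ≤ ‖s‖ ^ (M - q * (s.re - 1 / 2)) := by positivity
  rw [h3]
  constructor
  · apply mul_le_mul_of_nonneg_left _ hp
    apply Real.exp_le_exp.2
    have h6 : s.im / ‖s‖ ≤ 1 := by
      rw [div_le_one hn]; exact Complex.im_le_norm s
    have hpi := Real.pi_pos
    have h7 : q * s.im * (-(Real.pi / 2 * (s.re / ‖s‖))) ≤ q * s.im * (-I * s).arg :=
      mul_le_mul_of_nonneg_left h4 (by positivity)
    refine le_trans ?_ h7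
    have h8 : q * s.im * (-(Real.pi / 2 * (s.re / ‖s‖))) = -((q * (Real.pi / 2 * s.re)) * (s.im / ‖s‖)) := by
      field_simp
    rw [h8]
    apply neg_le_neg
    exact mul_le_of_le_one_right (by positivity) h6
  · apply mul_le_of_le_one_right hp
    rw [Real.exp_le_one_iff]
    exact mul_nonpos_of_nonneg_of_nonpos (by positivity) h5

/-- convexity bound to the right of the critical line, from a bound on the line -/
theorem zeta_strip_conv {M : ℝ} (hM0 : 0 ≤ M)
    (hM : ∃ C : ℝ, ∀ t : ℝ, ‖riemannZeta (1 / 2 + t * I)‖ ≤ C * (1 + |t|) ^ M) {ξ : ℝ} (hξ : 0 < ξ) :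
    ∃ C : ℝ, 0 < C ∧ ∀ s : ℂ, 1 / 2 ≤ s.re → s.re ≤ 1 → 1 ≤ s.im →
      ‖riemannZeta s‖ ≤ C * s.im ^ (M - (2 * M - ξ) * (s.re - 1 / 2)) := by
  obtain ⟨C0, hC0⟩ := hM
  have hC0n : 0 ≤ C0 := by
    have := (norm_nonneg _).trans (hC0 0)
    simpa using this
  set η : ℝ := min 1 (ξ / (4 * M + 4)) with hη
  have hη0 : 0 < η := lt_min one_pos (by positivity)
  have hη1 : η ≤ 1 := min_le_left _ _
  have hη2 : 4 * M * η ≤ ξ := by
    have h1 : η ≤ ξ / (4 * M + 4) := min_le_right _ _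
    rw [le_div_iff₀ (by positivity)] at h1
    nlinarith
  set q : ℝ := M / (1 / 2 + η) with hq
  have hq0 : 0 ≤ q := by positivity
  have hqM : q * (1 / 2 + η) = M := by
    rw [hq]; field_simp
  have hq2 : 2 * M - ξ ≤ q := by
    rw [hq, le_div_iff₀ (by positivity)]
    nlinarith
  obtain ⟨C1, hC1p, hC1⟩ := zeta_right_bounded (σ := 1 + η) (by linarith)
  have hpi := Real.pi_pos
  set E : ℝ := Real.exp (q * (Real.pi / 2 * 2)) with hE
  have hE1 : 1 ≤ E := by
    rw [hE]; apply Real.one_le_exp; positivity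
  have hexp : ∀ s ∈ HS (1 / 2) (1 + η) 1, 1 ≤ Real.exp (-(q * (Real.pi / 2 * s.re))) * E := by
    intro s hs
    rw [hE, ← Real.exp_add]
    apply Real.one_le_exp
    have : s.re ≤ 2 := by linarith [hs.2.1]
    have : q * (Real.pi / 2 * s.re) ≤ q * (Real.pi / 2 * 2) := by gcongr
    linarith
  set K : ℝ := (C0 * 2 ^ M + C1 + 18) * E with hK
  have hKp : 0 < K := by positivity
  have hsn : ∀ s ∈ HS (1 / 2) (1 + η) 1, 1 ≤ ‖s‖ := fun s hs => hs.2.2.trans (Complex.im_le_norm s)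
  have hsp : ∀ s ∈ HS (1 / 2) (1 + η) 1, 0 ≤ s.re ∧ 0 < s.im := fun s hs =>
    ⟨by linarith [hs.1], by linarith [hs.2.2]⟩
  -- main inequality for a crude bound
  have hmain : ∀ s ∈ HS (1 / 2) (1 + η) 1, ∀ b : ℝ, 0 ≤ b →
      ‖riemannZeta s‖ ≤ b * ‖s‖ ^ (M - q * (s.re - 1 / 2)) → ‖riemannZeta s / WW M q s‖ ≤ b * E := by
    intro s hs b hb h
    obtain ⟨h1, _⟩ := WW_norm (M := M) hq0 (hsp s hs).1 (hsp s hs).2
    have hpos : 0 < ‖s‖ ^ (M - q * (s.re - 1 / 2)) := Real.rpow_pos_of_pos (by linarith [hsn s hs]) _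
    have hWpos : 0 < ‖WW M q s‖ := lt_of_lt_of_le (by positivity) h1
    rw [norm_div, div_le_iff₀ hWpos]
    calc ‖riemannZeta s‖ ≤ b * ‖s‖ ^ (M - q * (s.re - 1 / 2)) := h
      _ ≤ b * (‖s‖ ^ (M - q * (s.re - 1 / 2)) * (Real.exp (-(q * (Real.pi / 2 * s.re))) * E)) := by
          apply mul_le_mul_of_nonneg_left _ hb
          exact le_mul_of_one_le_right hpos.le (hexp s hs)
      _ = b * E * (‖s‖ ^ (M - q * (s.re - 1 / 2)) * Real.exp (-(q * (Real.pi / 2 * s.re)))) := by ring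
      _ ≤ b * E * ‖WW M q s‖ := mul_le_mul_of_nonneg_left h1 (by positivity)
  have hexpo : ∀ s ∈ HS (1 / 2) (1 + η) 1, 0 ≤ M - q * (s.re - 1 / 2) := by
    intro s hs
    have h1 : q * (s.re - 1 / 2) ≤ q * (1 / 2 + η) := by
      apply mul_le_mul_of_nonneg_left _ hq0
      linarith [hs.2.1]
    linarith
  have hgrow : ∀ s ∈ HS (1 / 2) (1 + η) 1, ‖riemannZeta s‖ ≤ 18 * (1 + |s.im|) := by
    intro s hs
    have h1 := zeta_growth (s := s) (by linarith [hs.1]) hs.2.2
    have h2 := Complex.norm_le_abs_re_add_abs_im s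
    rw [abs_of_pos (by linarith [hs.1] : 0 < s.re)] at h2
    have h6 := hs.2.1
    have h7 := abs_nonneg s.im
    linarith
  have key : ∀ s ∈ HS (1 / 2) (1 + η) 1, ‖riemannZeta s / WW M q s‖ ≤ K := by
    apply pl_half (by linarith) _ hKp
    · intro s hs hs1
      have e1 : s = 1 / 2 + (s.im : ℂ) * I := by
        apply Complex.ext
        · simp [hs1]
        · simp
      have h1 := hC0 s.im
      rw [← e1] at h1
      have h2 : (1 + |s.im|) ^ M ≤ 2 ^ M * ‖s‖ ^ M := by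
        rw [← Real.mul_rpow (by norm_num) (norm_nonneg _)]
        apply Real.rpow_le_rpow (by positivity) _ hM0
        have := Complex.abs_im_le_norm s
        have := hsn s hs
        linarith
      have h3 : ‖riemannZeta s‖ ≤ (C0 * 2 ^ M) * ‖s‖ ^ (M - q * (s.re - 1 / 2)) := by
        rw [hs1, sub_self, mul_zero, sub_zero]
        calc ‖riemannZeta s‖ ≤ C0 * (1 + |s.im|) ^ M := h1
          _ ≤ C0 * (2 ^ M * ‖s‖ ^ M) := mul_le_mul_of_nonneg_left h2 hC0n
          _ = _ := by ring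
      refine (hmain s hs _ (by positivity) h3).trans ?_
      rw [hK]
      apply mul_le_mul_of_nonneg_right _ (by positivity)
      linarith
    · intro s hs hs2
      have h3 : ‖riemannZeta s‖ ≤ C1 * ‖s‖ ^ (M - q * (s.re - 1 / 2)) := by
        have h4 : M - q * (s.re - 1 / 2) = 0 := by
          rw [hs2]; linarith
        rw [h4, Real.rpow_zero, mul_one]
        exact hC1 s hs2
      refine (hmain s hs _ hC1p.le h3).trans ?_
      rw [hK]
      apply mul_le_mul_of_nonneg_right _ (by positivity)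
      have : 0 ≤ C0 * 2 ^ M := by positivity
      linarith
    · intro s hs hs3
      have h1 := zeta_growth (s := s) (by linarith [hs.1]) hs.2.2
      have h2 := Complex.norm_le_abs_re_add_abs_im s
      rw [hs3, abs_of_pos (by linarith [hs.1] : 0 < s.re), abs_one] at h2
      have h4 : (1:ℝ) ≤ ‖s‖ ^ (M - q * (s.re - 1 / 2)) := Real.one_le_rpow (hsn s hs) (hexpo s hs)
      have h6 := hs.2.1
      have h3 : ‖riemannZeta s‖ ≤ 18 * ‖s‖ ^ (M - q * (s.re - 1 / 2)) := by nlinarith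
      refine (hmain s hs _ (by norm_num) h3).trans ?_
      rw [hK]
      apply mul_le_mul_of_nonneg_right _ (by positivity)
      have : 0 ≤ C0 * 2 ^ M := by positivity
      linarith
    · refine ⟨18 * E, 1, fun s hs => ?_⟩
      have h4 : (1:ℝ) ≤ ‖s‖ ^ (M - q * (s.re - 1 / 2)) := Real.one_le_rpow (hsn s hs) (hexpo s hs)
      have h5 := hgrow s hs
      have h7 : 0 ≤ 18 * (1 + |s.im|) := by positivity
      refine (hmain s hs (18 * (1 + |s.im|)) h7 (h5.trans (le_mul_of_one_le_right h7 h4))).trans ?_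
      rw [pow_one]
      have h8 := Real.add_one_le_exp (18 * E * (1 + |s.im|))
      linarith
    · intro s hs
      apply DifferentiableAt.div (diffAt_zeta_im (hsp s hs).2) (WW_diff M q (hsp s hs).2)
      unfold WW
      exact Complex.exp_ne_zero _
  refine ⟨K * 3 ^ M, by positivity, ?_⟩
  intro s h1 h2 h3
  have hs : s ∈ HS (1 / 2) (1 + η) 1 := ⟨h1, by linarith, h3⟩
  have h4 := key s hs
  obtain ⟨h5, h6⟩ := WW_norm (M := M) hq0 (hsp s hs).1 (hsp s hs).2
  have hpos : 0 < ‖s‖ ^ (M - q * (s.re - 1 / 2)) := Real.rpow_pos_of_pos (by linarith [hsn s hs]) _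
  have hWpos : 0 < ‖WW M q s‖ := lt_of_lt_of_le (by positivity) h5
  rw [norm_div, div_le_iff₀ hWpos] at h4
  have h7 : ‖s‖ ≤ 3 * s.im := by
    have h8 := Complex.norm_le_abs_re_add_abs_im s
    rw [abs_of_pos (by linarith : 0 < s.re), abs_of_pos (by linarith : 0 < s.im)] at h8
    linarith
  have h0 : 0 < s.im := by linarith
  calc ‖riemannZeta s‖ ≤ K * ‖WW M q s‖ := h4
    _ ≤ K * ‖s‖ ^ (M - q * (s.re - 1 / 2)) := mul_le_mul_of_nonneg_left h6 hKp.le
    _ ≤ K * (3 * s.im) ^ (M - q * (s.re - 1 / 2)) := by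
        apply mul_le_mul_of_nonneg_left _ hKp.le
        exact Real.rpow_le_rpow (norm_nonneg _) h7 (hexpo s hs)
    _ = K * (3 ^ (M - q * (s.re - 1 / 2)) * s.im ^ (M - q * (s.re - 1 / 2))) := by
        rw [Real.mul_rpow (by norm_num) h0.le]
    _ ≤ K * (3 ^ M * s.im ^ (M - (2 * M - ξ) * (s.re - 1 / 2))) := by
        apply mul_le_mul_of_nonneg_left _ hKp.le
        apply mul_le_mul
        · apply Real.rpow_le_rpow_of_exponent_le (by norm_num)
          have : 0 ≤ q * (s.re - 1 / 2) := mul_nonneg hq0 (by linarith)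
          linarith
        · apply Real.rpow_le_rpow_of_exponent_le h3
          have : (2 * M - ξ) * (s.re - 1 / 2) ≤ q * (s.re - 1 / 2) :=
            mul_le_mul_of_nonneg_right hq2 (by linarith)
          linarith
        · positivity
        · positivity
    _ = _ := by ring

/-- symmetric bound on both sides of the critical line -/
theorem zeta_sym {M : ℝ} (hM0 : 0 ≤ M)
    (hM : ∃ C : ℝ, ∀ t : ℝ, ‖riemannZeta (1 / 2 + t * I)‖ ≤ C * (1 + |t|) ^ M) {ξ : ℝ} (hξ : 0 < ξ) :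
    ∃ C : ℝ, 0 < C ∧ ∀ s : ℂ, |s.re - 1 / 2| ≤ 1 / 2 → 1 ≤ s.im →
      ‖riemannZeta s‖ ≤
        C * s.im ^ (M + (1 / 2 - 2 * M + ξ) * |s.re - 1 / 2| - (s.re - 1 / 2) / 2) := by
  obtain ⟨C, hC, h⟩ := zeta_strip_conv hM0 hM hξ
  obtain ⟨K, hK, hX⟩ := H345.Chi.XX_size
  have hexp : 1 ≤ Real.exp K := Real.one_le_exp hK.le
  refine ⟨Real.exp K * C, by positivity, ?_⟩
  intro s hs1 hs2
  have hs0 : 0 < s.im := by linarith
  rcases le_total (1 / 2) s.re with h1 | h1
  · rw [abs_of_nonneg (by linarith)] at hs1 ⊢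
    have h2 := h s h1 (by linarith) hs2
    have e : M + (1 / 2 - 2 * M + ξ) * (s.re - 1 / 2) - (s.re - 1 / 2) / 2 =
        M - (2 * M - ξ) * (s.re - 1 / 2) := by ring
    rw [e]
    refine h2.trans ?_
    apply mul_le_mul_of_nonneg_right _ (by positivity)
    exact le_mul_of_one_le_left hC.le hexp
  · rw [abs_of_nonpos (by linarith)] at hs1 ⊢
    set s' : ℂ := 1 - (starRingEnd ℂ) s with hs'
    have r1 : s'.re = 1 - s.re := by rw [hs']; simp
    have r2 : s'.im = s.im := by rw [hs']; simp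
    have h2 := h s' (by rw [r1]; linarith) (by rw [r1]; linarith) (by rw [r2]; exact hs2)
    have h3 := (hX s' (by rw [r1]; linarith) (by rw [r1]; linarith) (by rw [r2]; exact hs2)).2
    have h4 := H345.zeta_fe s' (by
      intro n hn
      have := congrArg Complex.im hn
      rw [r2] at this
      simp at this
      linarith) (by
      intro hn
      have := congrArg Complex.im hn
      rw [r2] at this
      simp at this
      linarith)
    have e1 : 1 - s' = (starRingEnd ℂ) s := by rw [hs']; ring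
    rw [e1, riemannZeta_conj] at h4
    have h5 : ‖riemannZeta s‖ = ‖H345.XX s'‖ * ‖riemannZeta s'‖ := by
      rw [← norm_mul, ← h4, Complex.norm_conj]
    rw [h5]
    rw [r1, r2] at h2 h3
    calc ‖H345.XX s'‖ * ‖riemannZeta s'‖
        ≤ (Real.exp K * s.im ^ (1 - s.re - 1 / 2)) * (C * s.im ^ (M - (2 * M - ξ) * (1 - s.re - 1 / 2))) :=
          mul_le_mul h3 h2 (norm_nonneg _) (by positivity)
      _ = Real.exp K * C * (s.im ^ (1 - s.re - 1 / 2) * s.im ^ (M - (2 * M - ξ) * (1 - s.re - 1 / 2))) := by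
          ring
      _ = _ := by
          rw [← Real.rpow_add hs0]
          congr 2
          ring

end H855R2.LH
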