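import Mathlib
import Pool.Agent.H855R2.LH.LSamp2
import Pool.Agent.H855R2.LH.Strip

open Complex Filter Topology Set Finset

namespace H855R2.LH

open Pool.Agent.H388LH

/-- from a bound for large `t` to a bound for all `t` -/
theorem all_of_eventually {M : ℝ} (hM : 0 ≤ M)
    (h : ∃ C : ℝ, ∀ᶠ T : ℝ in atTop, ‖riemannZeta (1 / 2 + T * I)‖ ≤ C * T ^ M) :
    ∃ C : ℝ, ∀ t : ℝ, ‖riemannZeta (1 / 2 + t * I)‖ ≤ C * (1 + |t|) ^ M := by
  obtain ⟨C, hC⟩ := h
  obtain ⟨T1, hT1⟩ := eventually_atTop.1 (hC.and (eventually_ge_atTop 0))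
  obtain ⟨D, hD⟩ := (isCompact_Icc (a := (0:ℝ)) (b := T1)).exists_bound_of_continuousOn
    cont_zeta_line.continuousOn
  have hpos : ∀ t : ℝ, 0 ≤ t → ‖riemannZeta (1 / 2 + t * I)‖ ≤ (|C| + |D|) * (1 + |t|) ^ M := by
    intro t ht
    have h1 : (1:ℝ) ≤ (1 + |t|) ^ M := Real.one_le_rpow (by linarith [abs_nonneg t]) hM
    rcases le_total T1 t with h2 | h2
    · have h3 := (hT1 t h2).1
      have h4 : t ^ M ≤ (1 + |t|) ^ M := by
        apply Real.rpow_le_rpow ht _ hM
        rw [abs_of_nonneg ht]; linarith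
      calc ‖riemannZeta (1 / 2 + t * I)‖ ≤ C * t ^ M := h3
        _ ≤ |C| * (1 + |t|) ^ M := by
          apply mul_le_mul (le_abs_self C) h4 (by positivity) (abs_nonneg C)
        _ ≤ (|C| + |D|) * (1 + |t|) ^ M := by
          apply mul_le_mul_of_nonneg_right _ (by positivity)
          linarith [abs_nonneg D]
    · have h3 := hD t ⟨ht, h2⟩
      calc ‖riemannZeta (1 / 2 + t * I)‖ ≤ D := h3
        _ ≤ (|C| + |D|) * 1 := by
          have := le_abs_self D
          have := abs_nonneg C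
          linarith
        _ ≤ (|C| + |D|) * (1 + |t|) ^ M := by
          apply mul_le_mul_of_nonneg_left h1 (by positivity)
  refine ⟨|C| + |D|, fun t => ?_⟩
  rcases le_total 0 t with h1 | h1
  · exact hpos t h1
  · have h2 := hpos (-t) (by linarith)
    have e : ((1 / 2 : ℂ) + ((-t : ℝ) : ℂ) * I) = (starRingEnd ℂ) (1 / 2 + t * I) := by
      apply Complex.ext <;> simp
    rw [e, riemannZeta_conj, Complex.norm_conj, abs_neg] at h2
    exact h2

/-- the local function -/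
noncomputable def locf (h' T : ℝ) (w : ℂ) : ℂ :=
  cexp (((h' * Real.log T / 2 : ℝ) : ℂ) * I * w) * riemannZeta (1 / 2 + ((T : ℂ) + h' * w) * I)

theorem locf_zero (h' T : ℝ) : locf h' T 0 = riemannZeta (1 / 2 + T * I) := by
  simp [locf]

theorem locf_real (h' T x : ℝ) :
    ‖locf h' T x‖ = ‖riemannZeta (1 / 2 + ((T + h' * x : ℝ) : ℂ) * I)‖ := by
  unfold locf
  rw [norm_mul, Complex.norm_exp]
  have : (((h' * Real.log T / 2 : ℝ) : ℂ) * I * (x : ℂ)).re = 0 := by
    simp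
  rw [this, Real.exp_zero, one_mul]
  push_cast
  rfl

theorem locf_diff {h' T : ℝ} {w : ℂ} (h : 0 < T + h' * w.re) : DifferentiableAt ℂ (locf h' T) w := by
  unfold locf
  apply DifferentiableAt.mul
  · fun_prop
  · apply DifferentiableAt.comp (f := fun w : ℂ => 1 / 2 + ((T : ℂ) + h' * w) * I)
    · apply diffAt_zeta_im
      simp
      exact h
    · fun_prop

theorem locf_bound {M1 ξ C τ h' T : ℝ} (hC : 0 < C) (hM1 : 0 ≤ M1) (hξ : 0 < ξ)
    (hζ : ∀ s : ℂ, |s.re - 1 / 2| ≤ 1 / 2 → 1 ≤ s.im →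
      ‖riemannZeta s‖ ≤ C * s.im ^ (M1 + (1 / 2 - 2 * M1 + ξ) * |s.re - 1 / 2| - (s.re - 1 / 2) / 2))
    (hτ0 : 0 ≤ τ) (hτ : 1 / 2 - 2 * M1 + ξ ≤ τ) (hh' : 0 < h') (hT : 2 ≤ T) {w : ℂ}
    (hw1 : |h' * w.re| ≤ T / 2) (hw2 : |h' * w.im| ≤ 1 / 2) :
    ‖locf h' T w‖ ≤ (C * 2 ^ (1 + 2 * M1 + ξ)) * T ^ (M1 + τ / 2) := by
  have hT0 : 0 < T := by linarith
  unfold locf
  rw [norm_mul, Complex.norm_exp]
  set s : ℂ := 1 / 2 + ((T : ℂ) + h' * w) * I with hs
  have hre : s.re - 1 / 2 = -(h' * w.im) := by rw [hs]; simp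
  have him : s.im = T + h' * w.re := by rw [hs]; simp
  obtain ⟨h1, h2⟩ := abs_le.1 hw1
  have h3 := hζ s (by rw [hre, abs_neg]; exact hw2) (by rw [him]; linarith)
  set x : ℝ := s.re - 1 / 2 with hx
  have hx2 : |x| ≤ 1 / 2 := by rw [hre, abs_neg]; exact hw2
  have he1 : (((h' * Real.log T / 2 : ℝ) : ℂ) * I * w).re = Real.log T * (x / 2) := by
    rw [hre]; simp; ring
  have he2 : Real.exp (Real.log T * (x / 2)) = T ^ (x / 2) := by
    rw [Real.rpow_def_of_pos hT0]
  rw [he1, he2]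
  set e : ℝ := M1 + (1 / 2 - 2 * M1 + ξ) * |x| - x / 2 with he
  have hxabs := abs_le.1 hx2
  have hxn := abs_nonneg x
  -- |e| bound
  have hea : |e| ≤ 1 + 2 * M1 + ξ := by
    rw [abs_le]
    constructor
    · rw [he]; nlinarith
    · rw [he]; nlinarith
  have ht1 : T / 2 ≤ s.im := by rw [him]; linarith
  have ht2 : s.im ≤ 2 * T := by rw [him]; linarith
  have hpow : s.im ^ e ≤ 2 ^ (1 + 2 * M1 + ξ) * T ^ e := by
    rcases le_total 0 e with h0 | h0
    · calc s.im ^ e ≤ (2 * T) ^ e := Real.rpow_le_rpow (by linarith) ht2 h0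
        _ = 2 ^ e * T ^ e := Real.mul_rpow (by norm_num) hT0.le
        _ ≤ 2 ^ (1 + 2 * M1 + ξ) * T ^ e := by
          apply mul_le_mul_of_nonneg_right _ (by positivity)
          apply Real.rpow_le_rpow_of_exponent_le (by norm_num)
          exact (le_abs_self e).trans hea
    · calc s.im ^ e ≤ (T / 2) ^ e := Real.rpow_le_rpow_of_nonpos (by linarith) ht1 h0
        _ = 2 ^ (-e) * T ^ e := by
          rw [Real.div_rpow hT0.le (by norm_num), Real.rpow_neg (by norm_num)]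
          field_simp
        _ ≤ 2 ^ (1 + 2 * M1 + ξ) * T ^ e := by
          apply mul_le_mul_of_nonneg_right _ (by positivity)
          apply Real.rpow_le_rpow_of_exponent_le (by norm_num)
          exact (neg_le_abs e).trans hea
  calc T ^ (x / 2) * ‖riemannZeta s‖ ≤ T ^ (x / 2) * (C * (2 ^ (1 + 2 * M1 + ξ) * T ^ e)) := by
        apply mul_le_mul_of_nonneg_left _ (by positivity)
        exact h3.trans (mul_le_mul_of_nonneg_left hpow hC.le)
    _ = (C * 2 ^ (1 + 2 * M1 + ξ)) * (T ^ (x / 2) * T ^ e) := by ring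
    _ = (C * 2 ^ (1 + 2 * M1 + ξ)) * T ^ (x / 2 + e) := by rw [Real.rpow_add hT0]
    _ ≤ _ := by
        apply mul_le_mul_of_nonneg_left _ (by positivity)
        apply Real.rpow_le_rpow_of_exponent_le (by linarith)
        rw [he]
        have h5 : (1 / 2 - 2 * M1 + ξ) * |x| ≤ τ * |x| := mul_le_mul_of_nonneg_right hτ hxn
        have h6 : τ * |x| ≤ τ * (1 / 2) := mul_le_mul_of_nonneg_left hx2 hτ0
        linarith

/-- the hypothesis at height `T` for a window of length `h` -/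
def WinP (h p' c b T : ℝ) : Prop :=
  ∃ F : Finset ℝ, h * Real.log T * p' / (2 * Real.pi) ≤ F.card ∧
    (∀ t ∈ F, T ≤ t ∧ t ≤ T + h ∧ ‖riemannZeta (1 / 2 + t * I)‖ ≤ T ^ b) ∧
    (∀ t ∈ F, ∀ u ∈ F, t ≠ u → c / Real.log T ≤ |t - u|)

/-- the gain factor -/
noncomputable def EE1 (N : ℕ) (κ Y : ℝ) : ℝ :=
  (13 * N ^ 3 / κ) * Real.exp (-(Real.pi * Y - Y ^ 2 / (N - 2)))

/-- nodes at height `T` -/
theorem exists_nodes {h' κ p' c b T : ℝ} {N n : ℕ} (hh' : 0 < h') (hh1 : h' ≤ 1 / 2) (hκ : 0 < κ)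
    (hκ2 : κ < 1 / 2) (hc : 0 < c) (hb : 0 ≤ b) (hT : 4 ≤ T) (hNT : (N : ℝ) ≤ T)
    (hp' : 0 < p')
    (hW : ∀ j ∈ Finset.Ico (-(N : ℤ)) N, WinP ((1 - 2 * κ) * h') p' c b (T + (j + κ) * h'))
    (hn : (n : ℝ) ≤ (1 - 2 * κ) * h' * (Real.log T - Real.log 2) * p' / (2 * Real.pi)) :
    ∃ F : ℤ → Finset ℝ, Nodes N n κ (c / (2 * Real.log T * h')) F ∧
      ∀ j ∈ Finset.Ico (-(N : ℤ)) N, ∀ x ∈ F j, ‖locf h' T x‖ ≤ 2 ^ b * T ^ b := by
  classical
  have hT0 : 0 < T := by linarith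
  have hpi := Real.pi_pos
  have hex : ∀ j : ℤ, ∃ G : Finset ℝ, j ∈ Finset.Ico (-(N : ℤ)) N →
      (G.card = n ∧ (∀ x ∈ G, (j:ℝ) + κ ≤ x ∧ x ≤ j + 1 - κ) ∧
        (∀ x ∈ G, ∀ y ∈ G, x ≠ y → c / (2 * Real.log T * h') ≤ |x - y|) ∧
        (∀ x ∈ G, ‖locf h' T x‖ ≤ 2 ^ b * T ^ b)) := by
    intro j
    by_cases hj : j ∈ Finset.Ico (-(N : ℤ)) N
    · obtain ⟨F, hF1, hF2, hF3⟩ := hW j hj
      have hj' := Finset.mem_Ico.1 hj
      have hj1 : -(N:ℝ) ≤ j := by exact_mod_cast hj'.1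
      have hj2 : (j:ℝ) + 1 ≤ N := by exact_mod_cast hj'.2
      set Tj : ℝ := T + (j + κ) * h' with hTj
      have hTj1 : T / 2 ≤ Tj := by
        have : -(T / 2) ≤ (j + κ) * h' := by
          have h1 : -(N:ℝ) * h' ≤ (j + κ) * h' := mul_le_mul_of_nonneg_right (by linarith) hh'.le
          have h2 : (N:ℝ) * h' ≤ T * (1 / 2) := mul_le_mul hNT hh1 hh'.le hT0.le
          linarith
        linarith
      have hTj2 : Tj ≤ 2 * T := by
        have : (j + κ) * h' ≤ T := by
          have h1 : (j + κ) * h' ≤ N * h' := mul_le_mul_of_nonneg_right (by linarith) hh'.le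
          have h2 : (N:ℝ) * h' ≤ T * (1 / 2) := mul_le_mul hNT hh1 hh'.le hT0.le
          linarith
        linarith
      have hTj0 : 0 < Tj := by linarith
      have hTj1' : 1 < Tj := by linarith
      have hlog1 : Real.log T - Real.log 2 ≤ Real.log Tj := by
        rw [← Real.log_div hT0.ne' (by norm_num)]
        exact Real.log_le_log (by linarith) hTj1
      have hlogj : 0 < Real.log Tj := Real.log_pos hTj1'
      have hlog2 : Real.log Tj ≤ 2 * Real.log T := by
        have h1 : Real.log Tj ≤ Real.log (T ^ 2) := by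
          apply Real.log_le_log hTj0
          nlinarith
        rw [Real.log_pow] at h1
        exact_mod_cast h1
      have hcard : n ≤ F.card := by
        have h1 : (1 - 2 * κ) * h' * (Real.log T - Real.log 2) * p' / (2 * Real.pi) ≤
            (1 - 2 * κ) * h' * Real.log Tj * p' / (2 * Real.pi) := by
          have : 0 ≤ (1 - 2 * κ) * h' := mul_nonneg (by linarith) hh'.le
          gcongr
        exact_mod_cast hn.trans (h1.trans hF1)
      obtain ⟨F', hF'1, hF'2⟩ := Finset.exists_subset_card_eq hcard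
      have hinj : Function.Injective (fun t : ℝ => (t - T) / h') := by
        intro a b hab
        have hab' : (a - T) / h' = (b - T) / h' := hab
        rw [div_left_inj' hh'.ne'] at hab'
        linarith
      refine ⟨F'.image (fun t : ℝ => (t - T) / h'), fun _ => ⟨?_, ?_, ?_, ?_⟩⟩
      · rw [Finset.card_image_of_injective _ hinj, hF'2]
      · intro x hx
        obtain ⟨t, ht, rfl⟩ := Finset.mem_image.1 hx
        obtain ⟨h1, h2, _⟩ := hF2 t (hF'1 ht)
        constructor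
        · rw [le_div_iff₀ hh']; linarith
        · rw [div_le_iff₀ hh']; linarith
      · intro x hx y hy hxy
        obtain ⟨t, ht, rfl⟩ := Finset.mem_image.1 hx
        obtain ⟨u, hu, rfl⟩ := Finset.mem_image.1 hy
        have htu : t ≠ u := fun h => hxy (by rw [h])
        have h1 := hF3 t (hF'1 ht) u (hF'1 hu) htu
        have h2 : (t - T) / h' - (u - T) / h' = (t - u) / h' := by ring
        rw [h2, abs_div, abs_of_pos hh', le_div_iff₀ hh']
        refine le_trans ?_ h1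
        have hlogT : 0 < Real.log T := Real.log_pos (by linarith)
        have h3 : c / (2 * Real.log T * h') * h' = c / (2 * Real.log T) := by
          field_simp
        rw [h3]
        exact div_le_div_of_nonneg_left hc.le hlogj hlog2
      · intro x hx
        obtain ⟨t, ht, rfl⟩ := Finset.mem_image.1 hx
        obtain ⟨_, _, h3⟩ := hF2 t (hF'1 ht)
        rw [locf_real]
        have h4 : T + h' * ((t - T) / h') = t := by field_simp; ring
        rw [h4]
        refine h3.trans ?_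
        rw [← Real.mul_rpow (by norm_num) hT0.le]
        exact Real.rpow_le_rpow hTj0.le hTj2 hb
    · exact ⟨∅, fun h => absurd h hj⟩
  choose G hG using hex
  exact ⟨G, ⟨fun j hj => (hG j hj).1, fun j hj => (hG j hj).2.1, fun j hj => (hG j hj).2.2.1⟩,
    fun j hj => (hG j hj).2.2.2⟩

/-- lower bound for the separation product -/
theorem Ds_lower {s c2 : ℝ} (hs : 0 < s) {n : ℕ} (hn : 1 ≤ n) (hc2 : 0 < c2) (hc21 : c2 ≤ 1)
    (h : 2 * Real.exp 1 * c2 ≤ s * ((n : ℝ) - 1)) :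
    c2 ^ n ≤ s ^ (n - 1) * ((n - 1).factorial : ℝ) / 2 ^ (n - 1) := by
  obtain ⟨m, rfl⟩ : ∃ m, n = m + 1 := ⟨n - 1, by omega⟩
  have e1 : m + 1 - 1 = m := by omega
  have e2 : (((m + 1 : ℕ) : ℝ) - 1) = m := by push_cast; ring
  rw [e1]
  rw [e2] at h
  have h1 := Real.pow_div_factorial_le_exp (m : ℝ) (Nat.cast_nonneg m) m
  have hf : (0:ℝ) < (m.factorial : ℝ) := by exact_mod_cast Nat.factorial_pos _
  rw [div_le_iff₀ hf] at h1
  have h2 : Real.exp (m : ℝ) = Real.exp 1 ^ m := by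
    rw [← Real.exp_nat_mul]; simp
  rw [h2] at h1
  have h3 : (2 * Real.exp 1 * c2) ^ m ≤ (s * m) ^ m := pow_le_pow_left₀ (by positivity) h m
  have hE : 0 < Real.exp 1 ^ m := by positivity
  have h4 : c2 ^ m ≤ s ^ m * (m.factorial : ℝ) / 2 ^ m := by
    rw [le_div_iff₀ (by positivity)]
    have h5 : c2 ^ m * 2 ^ m * Real.exp 1 ^ m ≤ s ^ m * (m.factorial : ℝ) * Real.exp 1 ^ m := by
      calc c2 ^ m * 2 ^ m * Real.exp 1 ^ m = (2 * Real.exp 1 * c2) ^ m := by
            rw [mul_pow, mul_pow]; ring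
        _ ≤ (s * m) ^ m := h3
        _ = s ^ m * (m:ℝ) ^ m := mul_pow _ _ _
        _ ≤ s ^ m * (Real.exp 1 ^ m * (m.factorial : ℝ)) := mul_le_mul_of_nonneg_left h1 (by positivity)
        _ = _ := by ring
    exact le_of_mul_le_mul_right h5 hE
  refine le_trans ?_ h4
  rw [pow_succ]
  exact mul_le_of_le_one_right (by positivity) hc21

end H855R2.LH
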