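import Mathlib
import Pool.Agent.H855R2.LH.Step

open Complex Filter Topology Set Finset

namespace H855R2.LH

open Pool.Agent.H388LH

/-- the separation constant -/
noncomputable def cc2 (c κ p : ℝ) : ℝ := min 1 (c * (1 - 2 * κ) * p / (16 * Real.pi * Real.exp 1))

theorem cc2_pos {c κ p : ℝ} (hc : 0 < c) (hκ2 : κ < 1 / 2) (hp : 0 < p) : 0 < cc2 c κ p := by
  unfold cc2
  apply lt_min one_pos
  have : 0 < 1 - 2 * κ := by linarith
  have := Real.pi_pos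
  positivity

theorem step_core {M1 ξ C τ h' κ p p' c b ε3 : ℝ} {N : ℕ} (hC : 0 < C) (hM1 : 0 ≤ M1) (hξ : 0 < ξ)
    (hζ : ∀ s : ℂ, |s.re - 1 / 2| ≤ 1 / 2 → 1 ≤ s.im →
      ‖riemannZeta s‖ ≤ C * s.im ^ (M1 + (1 / 2 - 2 * M1 + ξ) * |s.re - 1 / 2| - (s.re - 1 / 2) / 2))
    (hτ0 : 0 ≤ τ) (hτ : 1 / 2 - 2 * M1 + ξ ≤ τ) (hh' : 0 < h') (hh1 : h' ≤ 1 / 2) (hκ : 0 < κ)
    (hκ2 : κ < 1 / 2) (hN : 3 ≤ N) (hYN : 3 * (1 / (2 * h')) ≤ N) (hp : 0 < p) (hpp' : p < p')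
    (hc : 0 < c) (hb : 0 ≤ b) (hε3 : 0 < ε3)
    (hW : ∀ᶠ T : ℝ in atTop, WinP ((1 - 2 * κ) * h') p' c b T)
    (hE : EE1 N κ (1 / (2 * h')) ≤ 1) :
    ∃ C' : ℝ, 0 ≤ C' ∧ ∀ᶠ T : ℝ in atTop, ‖riemannZeta (1 / 2 + T * I)‖ ≤
      C' * (T ^ (M1 + τ / 2 + ((1 - 2 * κ) * h' * p / (2 * Real.pi)) * Real.log (EE1 N κ (1 / (2 * h')))) +
        T ^ (b + ((1 - 2 * κ) * h' * p / (2 * Real.pi)) * Real.log (N ^ 3 / (κ ^ 2 * cc2 c κ p)) + ε3)) := by
  have hpi := Real.pi_pos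
  have hN3 : (3:ℝ) ≤ N := by exact_mod_cast hN
  have hN0 : (0:ℝ) < N := by linarith
  have hκ3 : 0 < 1 - 2 * κ := by linarith
  set Y : ℝ := 1 / (2 * h') with hY
  have hY1 : 1 ≤ Y := by
    rw [hY, le_div_iff₀ (by positivity)]; linarith
  have hhY : h' * Y = 1 / 2 := by rw [hY]; field_simp
  set E1 : ℝ := EE1 N κ Y with hE1
  have hE1pos : 0 < E1 := by rw [hE1]; unfold EE1; positivity
  set q : ℝ := (1 - 2 * κ) * h' * p / (2 * Real.pi) with hq
  have hq0 : 0 < q := by rw [hq]; positivity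
  set q' : ℝ := (1 - 2 * κ) * h' * p' / (2 * Real.pi) with hq'
  have hqq' : q < q' := by
    rw [hq, hq']
    apply div_lt_div_of_pos_right _ (by positivity)
    apply mul_lt_mul_of_pos_left hpp' (by positivity)
  set c2 : ℝ := cc2 c κ p with hc2
  have hc20 : 0 < c2 := cc2_pos hc hκ2 hp
  have hc21 : c2 ≤ 1 := min_le_left _ _
  have hc22 : c2 ≤ c * (1 - 2 * κ) * p / (16 * Real.pi * Real.exp 1) := min_le_right _ _
  set X : ℝ := N ^ 3 / (κ ^ 2 * c2) with hX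
  have hX1 : 1 ≤ X := by
    rw [hX, le_div_iff₀ (by positivity)]
    have h1 : κ ^ 2 * c2 ≤ 1 * 1 := by
      apply mul_le_mul _ hc21 hc20.le (by norm_num)
      nlinarith
    have h2 : (1:ℝ) ≤ (N:ℝ) ^ 3 := one_le_pow₀ (by linarith)
    linarith
  set ℓ : ℝ := Real.log X with hℓ
  have hℓ0 : 0 ≤ ℓ := Real.log_nonneg hX1
  -- eventual conditions
  have hlogT : Tendsto Real.log atTop atTop := Real.tendsto_log_atTop
  have ev1 : ∀ᶠ T : ℝ in atTop, ∀ j ∈ Finset.Ico (-(N : ℤ)) N,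
      WinP ((1 - 2 * κ) * h') p' c b (T + (j + κ) * h') := by
    rw [Filter.eventually_all_finset]
    intro j _
    have : Tendsto (fun T : ℝ => T + (j + κ) * h') atTop atTop := tendsto_atTop_add_const_right _ _ tendsto_id
    exact this.eventually hW
  have ev2 : ∀ᶠ T : ℝ in atTop, 1 + q' * Real.log 2 ≤ (q' - q) * Real.log T :=
    (hlogT.const_mul_atTop (by linarith)).eventually_ge_atTop _
  have ev3 : ∀ᶠ T : ℝ in atTop, 2 ≤ q * Real.log T :=
    (hlogT.const_mul_atTop hq0).eventually_ge_atTop _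
  set K1 : ℝ := C * 2 ^ (1 + 2 * M1 + ξ) with hK1
  set K2 : ℝ := 2 * N * (q / ε3 + 1) * 2 ^ b * Real.exp ℓ * (1 + 1 / κ) with hK2
  have hK10 : 0 ≤ K1 := by positivity
  have hK20 : 0 ≤ K2 := by positivity
  refine ⟨K1 + K2, by positivity, ?_⟩
  filter_upwards [ev1, ev2, ev3, eventually_ge_atTop 4, eventually_ge_atTop (N:ℝ)] with T h1 h2 h3 hT4 hTN
  have hT0 : 0 < T := by linarith
  set L : ℝ := Real.log T with hL
  have hL0 : 0 < L := Real.log_pos (by linarith)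
  set n : ℕ := ⌈q * L⌉₊ with hn
  have hn1 : q * L ≤ n := Nat.le_ceil _
  have hn2 : (n : ℝ) ≤ q * L + 1 := (Nat.ceil_lt_add_one (by positivity)).le
  have hnge : (2:ℝ) ≤ n := h3.trans hn1
  have hn1' : 1 ≤ n := by
    have : (1:ℝ) ≤ n := by linarith
    exact_mod_cast this
  obtain ⟨F, hF, hFB⟩ := exists_nodes (n := n) hh' hh1 hκ hκ2 hc hb hT4 hTN (by linarith) h1 (by
    have e : (1 - 2 * κ) * h' * (Real.log T - Real.log 2) * p' / (2 * Real.pi) =
        q' * (L - Real.log 2) := by rw [hq', hL]; ring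
    rw [e]
    nlinarith)
  set s : ℝ := c / (2 * L * h') with hs
  have hs0 : 0 < s := by rw [hs]; positivity
  have hloc := local_sampling (Y := Y) (A := K1 * T ^ (M1 + τ / 2)) (B := 2 ^ b * T ^ b) hN hn1' hκ hκ2 hs0 hY1 hYN
    hF (U := {w : ℂ | 0 < T + h' * w.re}) (by
      apply isOpen_lt continuous_const
      fun_prop) (by
      intro w hw
      obtain ⟨hw1, _⟩ := hw
      have h4 := (abs_le.1 hw1).1
      have h5 : h' * (-(N:ℝ)) ≤ h' * w.re := mul_le_mul_of_nonneg_left h4 hh'.le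
      have h6 : h' * N ≤ 1 / 2 * T := mul_le_mul hh1 hTN hN0.le (by norm_num)
      show 0 < T + h' * w.re
      linarith) (f := locf h' T) (fun w hw => (locf_diff hw).differentiableWithinAt) (by
      intro w hw1 hw2
      apply locf_bound hC hM1 hξ hζ hτ0 hτ hh' (by linarith)
      · rw [abs_mul, abs_of_pos hh']
        calc h' * |w.re| ≤ (1 / 2) * T := mul_le_mul hh1 (hw1.trans hTN) (abs_nonneg _) (by norm_num)
          _ = T / 2 := by ring
      · rw [abs_mul, abs_of_pos hh', ← hhY]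
        exact mul_le_mul_of_nonneg_left hw2 hh'.le) hFB (by positivity)
  rw [locf_zero] at hloc
  -- first term
  have hpow1 : E1 ^ n ≤ T ^ (q * Real.log E1) := by
    have h4 : E1 ^ n = Real.exp (n * Real.log E1) := by
      rw [mul_comm, Real.exp_mul, Real.exp_log hE1pos, Real.rpow_natCast]
    rw [h4, Real.rpow_def_of_pos hT0]
    apply Real.exp_le_exp.2
    have h5 : Real.log E1 ≤ 0 := Real.log_nonpos hE1pos.le hE
    have h6 : (n:ℝ) * Real.log E1 ≤ (q * L) * Real.log E1 := mul_le_mul_of_nonpos_right hn1 h5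
    calc (n:ℝ) * Real.log E1 ≤ (q * L) * Real.log E1 := h6
      _ = Real.log T * (q * Real.log E1) := by rw [hL]; ring
  have hterm1 : (K1 * T ^ (M1 + τ / 2)) * E1 ^ n ≤ K1 * T ^ (M1 + τ / 2 + q * Real.log E1) := by
    have hadd : T ^ (M1 + τ / 2 + q * Real.log E1) = T ^ (M1 + τ / 2) * T ^ (q * Real.log E1) :=
      Real.rpow_add hT0 _ _
    rw [hadd, ← mul_assoc]
    exact mul_le_mul_of_nonneg_left hpow1 (by positivity)
  -- second term
  have hDs : c2 ^ n ≤ s ^ (n - 1) * ((n - 1).factorial : ℝ) / 2 ^ (n - 1) := by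
    apply Ds_lower hs0 hn1' hc20 hc21
    have h4 : q * L / 2 ≤ (n:ℝ) - 1 := by linarith
    have h5 : s * (q * L / 2) ≤ s * ((n:ℝ) - 1) := mul_le_mul_of_nonneg_left h4 hs0.le
    refine le_trans ?_ h5
    have h6 : s * (q * L / 2) = c * (1 - 2 * κ) * p / (8 * Real.pi) := by
      rw [hs, hq]; field_simp; ring
    rw [h6]
    calc 2 * Real.exp 1 * c2 ≤ 2 * Real.exp 1 * (c * (1 - 2 * κ) * p / (16 * Real.pi * Real.exp 1)) :=
          mul_le_mul_of_nonneg_left hc22 (by positivity)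
      _ = _ := by field_simp; ring
  have hDs0 : 0 < s ^ (n - 1) * ((n - 1).factorial : ℝ) / 2 ^ (n - 1) := lt_of_lt_of_le (by positivity) hDs
  have hpow2 : (N ^ 3 / κ ^ 2) ^ n / (s ^ (n - 1) * ((n - 1).factorial : ℝ) / 2 ^ (n - 1)) ≤
      Real.exp ℓ * T ^ (q * ℓ) := by
    calc (N ^ 3 / κ ^ 2) ^ n / (s ^ (n - 1) * ((n - 1).factorial : ℝ) / 2 ^ (n - 1))
        ≤ (N ^ 3 / κ ^ 2) ^ n / c2 ^ n := by
          apply div_le_div_of_nonneg_left (by positivity) (by positivity) hDs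
      _ = X ^ n := by
          rw [hX, ← div_pow]
          congr 1
          field_simp
      _ = Real.exp (n * ℓ) := by
          rw [mul_comm, Real.exp_mul, Real.exp_log (by linarith), Real.rpow_natCast]
      _ ≤ Real.exp (ℓ + Real.log T * (q * ℓ)) := by
          apply Real.exp_le_exp.2
          have h4 : (n:ℝ) * ℓ ≤ (q * L + 1) * ℓ := mul_le_mul_of_nonneg_right hn2 hℓ0
          calc (n:ℝ) * ℓ ≤ (q * L + 1) * ℓ := h4
            _ = _ := by rw [hL]; ring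
      _ = _ := by rw [Real.exp_add, Real.rpow_def_of_pos hT0]
  have hncount : (2 * N * n : ℝ) ≤ 2 * N * (q / ε3 + 1) * T ^ ε3 := by
    have h4 : L ≤ T ^ ε3 / ε3 := Real.log_le_rpow_div hT0.le hε3
    have h5 : (1:ℝ) ≤ T ^ ε3 := Real.one_le_rpow (by linarith) hε3.le
    have h6 : (n:ℝ) ≤ (q / ε3 + 1) * T ^ ε3 := by
      calc (n:ℝ) ≤ q * L + 1 := hn2
        _ ≤ q * (T ^ ε3 / ε3) + T ^ ε3 := by
          have := mul_le_mul_of_nonneg_left h4 hq0.le
          linarith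
        _ = _ := by ring
    calc (2 * N * n : ℝ) ≤ 2 * N * ((q / ε3 + 1) * T ^ ε3) :=
          mul_le_mul_of_nonneg_left h6 (by positivity)
      _ = _ := by ring
  have hterm2 : (2 * N * n) * (2 ^ b * T ^ b) *
      ((N ^ 3 / κ ^ 2) ^ n / (s ^ (n - 1) * ((n - 1).factorial : ℝ) / 2 ^ (n - 1))) * (1 + 1 / κ) ≤
      K2 * T ^ (b + q * ℓ + ε3) := by
    calc (2 * N * n) * (2 ^ b * T ^ b) *
      ((N ^ 3 / κ ^ 2) ^ n / (s ^ (n - 1) * ((n - 1).factorial : ℝ) / 2 ^ (n - 1))) * (1 + 1 / κ)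
        ≤ (2 * N * (q / ε3 + 1) * T ^ ε3) * (2 ^ b * T ^ b) * (Real.exp ℓ * T ^ (q * ℓ)) * (1 + 1 / κ) := by
          gcongr
      _ = K2 * (T ^ b * T ^ (q * ℓ) * T ^ ε3) := by rw [hK2]; ring
      _ = _ := by rw [← Real.rpow_add hT0, ← Real.rpow_add hT0]
  have hE1' : (13 * (N:ℝ) ^ 3 / κ) * Real.exp (-(Real.pi * Y - Y ^ 2 / (N - 2))) = E1 := rfl
  rw [hE1'] at hloc
  have hp1 : 0 ≤ T ^ (M1 + τ / 2 + q * Real.log E1) := by positivity
  have hp2 : 0 ≤ T ^ (b + q * ℓ + ε3) := by positivity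
  calc ‖riemannZeta (1 / 2 + T * I)‖ ≤ _ := hloc
    _ ≤ K1 * T ^ (M1 + τ / 2 + q * Real.log E1) + K2 * T ^ (b + q * ℓ + ε3) :=
        add_le_add hterm1 hterm2
    _ ≤ _ := by nlinarith [mul_nonneg hK10 hp2, mul_nonneg hK20 hp1]

end H855R2.LH
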