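import Mathlib
import Pool.Agent.H855R2.LH.Step2

open Complex Filter Topology Set Finset

namespace H855R2.LH

open Pool.Agent.H388LH

/-- the order of zeta on the critical line is at most `β` -/
def ZO (β : ℝ) : Prop :=
  ∀ ε : ℝ, 0 < ε → ∃ C : ℝ, ∀ t : ℝ, ‖riemannZeta (1 / 2 + t * I)‖ ≤ C * (1 + |t|) ^ (β + ε)

/-- the values of size `≤ T^(a+ε)` have density at least `(1/θ) (log T)/(2π)` in short windows -/
def Dens (θ a : ℝ) : Prop :=
  ∀ θ' : ℝ, θ < θ' → ∀ ε : ℝ, 0 < ε → ∃ c : ℝ, 0 < c ∧ ∀ h : ℝ, 0 < h → ∃ T0 : ℝ, ∀ T : ℝ, T0 ≤ T →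
    ∃ F : Finset ℝ, h * Real.log T / (2 * Real.pi * θ') ≤ F.card ∧
      (∀ t ∈ F, T ≤ t ∧ t ≤ T + h ∧ ‖riemannZeta (1 / 2 + t * I)‖ ≤ T ^ (a + ε)) ∧
      (∀ t ∈ F, ∀ u ∈ F, t ≠ u → c / Real.log T ≤ |t - u|)

theorem tendsto_log_small (X : ℝ) (hX : 0 < X) (K : ℕ) :
    Tendsto (fun m : ℕ => Real.log (X * ((K * m + 2 : ℕ) : ℝ) ^ 3) / m) atTop (𝓝 0) := by
  have h1 : Tendsto (fun x : ℝ => Real.log x / x) atTop (𝓝 0) := by
    have := Real.isLittleO_log_id_atTop.tendsto_div_nhds_zero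
    simpa using this
  have h2 : Tendsto (fun m : ℕ => Real.log (m:ℝ) / (m:ℝ)) atTop (𝓝 0) :=
    h1.comp tendsto_natCast_atTop_atTop
  have h3 : Tendsto (fun m : ℕ => (|Real.log (X * (K + 2) ^ 3)| + |Real.log X|) / (m:ℝ) + 3 * (Real.log (m:ℝ) / (m:ℝ)))
      atTop (𝓝 0) := by
    have h4 : Tendsto (fun m : ℕ => (|Real.log (X * (K + 2) ^ 3)| + |Real.log X|) / (m:ℝ)) atTop (𝓝 0) :=
      tendsto_const_div_atTop_nhds_zero_nat _
    have := h4.add (h2.const_mul 3)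
    simpa using this
  have h5 : Tendsto (fun m : ℕ => -(|Real.log X| / (m:ℝ))) atTop (𝓝 0) := by
    have h4 : Tendsto (fun m : ℕ => |Real.log X| / (m:ℝ)) atTop (𝓝 0) :=
      tendsto_const_div_atTop_nhds_zero_nat _
    simpa using h4.neg
  apply tendsto_of_tendsto_of_tendsto_of_le_of_le' h5 h3
  · filter_upwards [eventually_ge_atTop 1] with m hm
    have hm0 : (0:ℝ) < m := by exact_mod_cast hm
    rw [← neg_div]
    apply div_le_div_of_nonneg_right _ hm0.le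
    have h6 : Real.log X ≤ Real.log (X * ((K * m + 2 : ℕ) : ℝ) ^ 3) := by
      apply Real.log_le_log hX
      apply le_mul_of_one_le_right hX.le
      apply one_le_pow₀
      have : 1 ≤ K * m + 2 := by omega
      exact_mod_cast this
    have := neg_abs_le (Real.log X)
    linarith
  · filter_upwards [eventually_ge_atTop 1] with m hm
    have hm1 : (1:ℝ) ≤ m := by exact_mod_cast hm
    have hm0 : (0:ℝ) < m := by linarith
    have e : (|Real.log (X * (K + 2) ^ 3)| + |Real.log X|) / (m:ℝ) + 3 * (Real.log (m:ℝ) / (m:ℝ)) =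
        (|Real.log (X * (K + 2) ^ 3)| + |Real.log X| + 3 * Real.log (m:ℝ)) / m := by ring
    rw [e]
    apply div_le_div_of_nonneg_right _ hm0.le
    have h6 : Real.log (X * ((K * m + 2 : ℕ) : ℝ) ^ 3) ≤ Real.log (X * (K + 2) ^ 3 * (m:ℝ) ^ 3) := by
      apply Real.log_le_log (by positivity)
      rw [mul_assoc, ← mul_pow]
      apply mul_le_mul_of_nonneg_left _ hX.le
      apply pow_le_pow_left₀ (by positivity)
      push_cast
      nlinarith
    have h9 : Real.log (X * (K + 2) ^ 3 * (m:ℝ) ^ 3) =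
        Real.log (X * (K + 2) ^ 3) + 3 * Real.log (m:ℝ) := by
      rw [Real.log_mul (by positivity) (by positivity), Real.log_pow]
      push_cast; ring
    rw [h9] at h6
    have h7 := le_abs_self (Real.log (X * (K + 2) ^ 3))
    have h8 := abs_nonneg (Real.log X)
    push_cast at h6 ⊢
    linarith

theorem step {θ a M : ℝ} (hθ : 0 < θ) (ha : 0 ≤ a) (hd : Dens θ a) (hM : a < M)
    (hM2 : 1 - 4 * M < 1 / θ) (hZ : ZO M) :
    ∃ M' : ℝ, M' < M ∧ 0 ≤ M' ∧ ∃ C : ℝ, ∀ t : ℝ,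
      ‖riemannZeta (1 / 2 + t * I)‖ ≤ C * (1 + |t|) ^ M' := by
  have hpi := Real.pi_pos
  have hθi : 0 < 1 / θ := by positivity
  set τ0 : ℝ := max 0 (1 - 4 * M) with hτ0
  have hτ00 : 0 ≤ τ0 := le_max_left _ _
  have hτ01 : 1 - 4 * M ≤ τ0 := le_max_right _ _
  have hτ02 : τ0 < 1 / θ := max_lt hθi hM2
  set r : ℝ := 1 / θ - τ0 with hr
  have hr0 : 0 < r := by linarith
  set p : ℝ := 1 / θ - r / 4 with hp
  set p' : ℝ := 1 / θ - r / 8 with hp'
  have hp0 : 0 < p := by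
    have : p = 3 / 4 * (1 / θ) + τ0 / 4 := by rw [hp, hr]; ring
    rw [this]; positivity
  have hpp' : p < p' := by rw [hp, hp']; linarith
  have hp'0 : 0 < p' := by linarith
  set θ' : ℝ := 1 / p' with hθ'
  have hθθ' : θ < θ' := by
    rw [hθ', lt_div_iff₀ hp'0]
    have h1 : p' < 1 / θ := by rw [hp']; linarith
    calc θ * p' < θ * (1 / θ) := mul_lt_mul_of_pos_left h1 hθ
      _ = 1 := by field_simp
  set ε2 : ℝ := (M - a) / 4 with hε2
  have hε20 : 0 < ε2 := by rw [hε2]; linarith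
  obtain ⟨c, hc, hW⟩ := hd θ' hθθ' ε2 hε20
  set κ : ℝ := min (1 / 4) (r / (16 * p)) with hκ
  have hκ0 : 0 < κ := lt_min (by norm_num) (by positivity)
  have hκ1 : κ ≤ 1 / 4 := min_le_left _ _
  have hκ2 : 2 * κ * p ≤ r / 8 := by
    have h1 : κ ≤ r / (16 * p) := min_le_right _ _
    rw [le_div_iff₀ (by positivity)] at h1
    linarith
  obtain ⟨K, hK⟩ := exists_nat_ge (max 3 (8 * p / r))
  have hK3 : (3:ℝ) ≤ K := (le_max_left _ _).trans hK
  have hKp : p / K ≤ r / 8 := by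
    have h1 : 8 * p / r ≤ K := (le_max_right _ _).trans hK
    rw [div_le_iff₀ hr0] at h1
    rw [div_le_iff₀ (by linarith)]
    linarith
  have hK0 : (0:ℝ) < K := by linarith
  set c2 : ℝ := cc2 c κ p with hc2
  have hc20 : 0 < c2 := cc2_pos hc (by linarith) hp0
  have ev1 := (tendsto_log_small (13 / κ) (by positivity) K).eventually (gt_mem_nhds
    (show (0:ℝ) < 1 / K by positivity))
  have ev2 := (tendsto_log_small (1 / (κ ^ 2 * c2)) (by positivity) K).eventually (gt_mem_nhds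
    (show (0:ℝ) < ε2 / p by positivity))
  obtain ⟨m, hm1, hm2, hm3⟩ := (ev1.and (ev2.and (eventually_ge_atTop 1))).exists
  have hmr : (1:ℝ) ≤ m := by exact_mod_cast hm3
  have hm0 : (0:ℝ) < m := by linarith
  set N : ℕ := K * m + 2 with hN
  have hNr : (N:ℝ) = K * m + 2 := by rw [hN]; push_cast; ring
  have hKm : (K:ℝ) * 1 ≤ K * m := mul_le_mul_of_nonneg_left hmr hK0.le
  have hN3 : 3 ≤ N := by
    have : (3:ℝ) ≤ N := by rw [hNr]; linarith
    exact_mod_cast this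
  have hN0 : (0:ℝ) < N := by rw [hNr]; positivity
  set h' : ℝ := 1 / (2 * m) with hh'
  have hh'0 : 0 < h' := by positivity
  have hh'1 : h' ≤ 1 / 2 := by
    rw [hh']
    apply one_div_le_one_div_of_le (by norm_num) (by linarith)
  have hY : 1 / (2 * h') = m := by rw [hh']; field_simp
  set ε1 : ℝ := r / 64 with hε1
  have hε10 : 0 < ε1 := by positivity
  set ξ : ℝ := r / 32 with hξ
  have hξ0 : 0 < ξ := by positivity
  obtain ⟨C0, hC0⟩ := hZ ε1 hε10
  have hM0 : 0 < M := by linarith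
  obtain ⟨C, hC, hζ⟩ := zeta_sym (M := M + ε1) (by linarith) ⟨C0, hC0⟩ hξ0
  set τ : ℝ := τ0 / 2 + ξ with hτ
  -- the gain factor
  have hlogE : Real.log (EE1 N κ m) = Real.log (13 / κ * (N:ℝ) ^ 3) - Real.pi * m + m / K := by
    unfold EE1
    have e1 : 13 * (N:ℝ) ^ 3 / κ = 13 / κ * (N:ℝ) ^ 3 := by ring
    rw [e1, Real.log_mul (by positivity) (Real.exp_pos _).ne', Real.log_exp]
    have e2 : ((m:ℝ)) ^ 2 / ((N:ℝ) - 2) = m / K := by
      rw [hNr]; field_simp; ring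
    rw [e2]; ring
  have hlogE2 : Real.log (EE1 N κ m) ≤ -(m * (Real.pi * (1 - 1 / K))) := by
    rw [hlogE]
    have h1 : Real.log (13 / κ * (N:ℝ) ^ 3) ≤ m * (1 / K) := by
      rw [div_lt_iff₀ hm0] at hm1
      linarith
    have h2 : (m:ℝ) / K = m * (1 / K) := by ring
    rw [h2]
    have h3 : (2:ℝ) * (m * (1 / K)) ≤ Real.pi * (m * (1 / K)) :=
      mul_le_mul_of_nonneg_right (by linarith [Real.pi_gt_three]) (by positivity)
    have h4 : -(m * (Real.pi * (1 - 1 / K))) = -(Real.pi * m) + Real.pi * (m * (1 / K)) := by ring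
    rw [h4]
    linarith
  have hKi : (1:ℝ) / K ≤ 1 / 3 := one_div_le_one_div_of_le (by norm_num) hK3
  have hEpos : 0 < EE1 N κ m := by unfold EE1; positivity
  have hE1 : EE1 N κ (1 / (2 * h')) ≤ 1 := by
    rw [hY, ← Real.log_nonpos_iff hEpos.le]
    refine hlogE2.trans ?_
    have : 0 ≤ m * (Real.pi * (1 - 1 / (K:ℝ))) := by
      apply mul_nonneg hm0.le
      apply mul_nonneg hpi.le
      linarith
    linarith
  obtain ⟨C', hC', hfin⟩ := step_core (M1 := M + ε1) (ξ := ξ) (C := C) (τ := τ) (h' := h') (κ := κ)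
    (p := p) (p' := p') (c := c) (b := a + ε2) (ε3 := ε2) (N := N) hC (by linarith) hξ0 hζ
    (by positivity) (by rw [hτ]; linarith) hh'0 hh'1 hκ0 (by linarith) hN3
    (by rw [hY, hNr]; nlinarith) hp0 hpp' hc (by linarith) hε20 (by
      have hhpos : 0 < (1 - 2 * κ) * h' := mul_pos (by linarith) hh'0
      obtain ⟨T0, hT0⟩ := hW ((1 - 2 * κ) * h') hhpos
      filter_upwards [eventually_ge_atTop T0] with T hT
      obtain ⟨F, hF1, hF2, hF3⟩ := hT0 T hT
      refine ⟨F, ?_, hF2, hF3⟩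
      refine le_trans (le_of_eq ?_) hF1
      rw [hθ']
      field_simp) hE1
  set e1 : ℝ := M + ε1 + τ / 2 + ((1 - 2 * κ) * h' * p / (2 * Real.pi)) *
    Real.log (EE1 N κ (1 / (2 * h'))) with he1
  set e2 : ℝ := a + ε2 + ((1 - 2 * κ) * h' * p / (2 * Real.pi)) *
    Real.log (N ^ 3 / (κ ^ 2 * cc2 c κ p)) + ε2 with he2
  have hq0 : 0 ≤ (1 - 2 * κ) * h' * p / (2 * Real.pi) := by
    have : 0 ≤ 1 - 2 * κ := by linarith
    positivity
  have he1' : e1 ≤ M - 3 * r / 32 := by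
    have h1 : ((1 - 2 * κ) * h' * p / (2 * Real.pi)) * Real.log (EE1 N κ (1 / (2 * h'))) ≤
        ((1 - 2 * κ) * h' * p / (2 * Real.pi)) * (-(m * (Real.pi * (1 - 1 / K)))) := by
      rw [hY]
      exact mul_le_mul_of_nonneg_left hlogE2 hq0
    have h2 : ((1 - 2 * κ) * h' * p / (2 * Real.pi)) * (-(m * (Real.pi * (1 - 1 / K)))) =
        -((1 - 2 * κ) * (1 - 1 / K) * p / 4) := by
      rw [hh']; field_simp; ring
    have h3 : p - 2 * κ * p - p / K ≤ (1 - 2 * κ) * (1 - 1 / K) * p := by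
      have h4 : (1 - 2 * κ) * (1 - 1 / K) * p = p - 2 * κ * p - p / K + 2 * κ * p / K := by
        field_simp; ring
      rw [h4]
      have : 0 ≤ 2 * κ * p / K := by positivity
      linarith
    rw [he1, hτ, hε1, hξ]
    have h5 : p = τ0 + 3 * r / 4 := by rw [hp, hr]; ring
    rw [h2] at h1
    linarith
  have he2' : e2 ≤ M - (M - a) / 4 := by
    have h1 : Real.log ((N:ℝ) ^ 3 / (κ ^ 2 * cc2 c κ p)) ≤ m * (ε2 / p) := by
      rw [div_lt_iff₀ hm0] at hm2
      have e : (N:ℝ) ^ 3 / (κ ^ 2 * cc2 c κ p) = 1 / (κ ^ 2 * c2) * ((K * m + 2 : ℕ) : ℝ) ^ 3 := by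
        rw [hc2, hN]; ring
      rw [e]
      linarith
    have h2 : ((1 - 2 * κ) * h' * p / (2 * Real.pi)) * Real.log ((N:ℝ) ^ 3 / (κ ^ 2 * cc2 c κ p)) ≤
        ((1 - 2 * κ) * h' * p / (2 * Real.pi)) * (m * (ε2 / p)) :=
      mul_le_mul_of_nonneg_left h1 hq0
    have h3 : ((1 - 2 * κ) * h' * p / (2 * Real.pi)) * (m * (ε2 / p)) =
        (1 - 2 * κ) * ε2 / (4 * Real.pi) := by
      rw [hh']; field_simp; ring
    have h4 : (1 - 2 * κ) * ε2 / (4 * Real.pi) ≤ ε2 := by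
      rw [div_le_iff₀ (by positivity)]
      have h5 := Real.pi_gt_three
      have h6 : (1 - 2 * κ) * ε2 ≤ 1 * ε2 := mul_le_mul_of_nonneg_right (by linarith) hε20.le
      nlinarith
    rw [he2]
    have h7 : ε2 = (M - a) / 4 := hε2
    linarith
  set M' : ℝ := max (M - 3 * r / 32) (M - (M - a) / 4) with hM'
  have hM'0 : 0 ≤ M' := by
    refine le_trans ?_ (le_max_right _ _)
    linarith
  refine ⟨M', max_lt (by linarith) (by linarith), hM'0, ?_⟩
  apply all_of_eventually hM'0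
  refine ⟨2 * C', ?_⟩
  filter_upwards [hfin, eventually_ge_atTop 1] with T hT hT1
  refine hT.trans ?_
  have h1 : T ^ e1 ≤ T ^ M' :=
    Real.rpow_le_rpow_of_exponent_le hT1 (he1'.trans (le_max_left _ _))
  have h2 : T ^ e2 ≤ T ^ M' :=
    Real.rpow_le_rpow_of_exponent_le hT1 (he2'.trans (le_max_right _ _))
  calc C' * (T ^ e1 + T ^ e2) ≤ C' * (T ^ M' + T ^ M') := by gcongr
    _ = _ := by ring

theorem ZO_one : ZO 1 := by
  intro ε hε
  refine ⟨9, fun t => ?_⟩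
  have h1 := zeta_growth' (s := 1 / 2 + t * I) (by simp; norm_num) (by simp; norm_num)
  have e : ((1 / 2 : ℂ) + t * I).im = t := by simp
  rw [e] at h1
  refine h1.trans ?_
  apply mul_le_mul_of_nonneg_left _ (by norm_num)
  calc 1 + |t| = (1 + |t|) ^ (1:ℝ) := (Real.rpow_one _).symm
    _ ≤ (1 + |t|) ^ (1 + ε) :=
      Real.rpow_le_rpow_of_exponent_le (by linarith [abs_nonneg t]) (by linarith)

theorem ZO_of_lt {m : ℝ} (h : ∀ ε : ℝ, 0 < ε → ∃ M : ℝ, M < m + ε ∧ ZO M) : ZO m := by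
  intro ε hε
  obtain ⟨M, hM1, hM2⟩ := h (ε / 2) (by positivity)
  obtain ⟨C, hC⟩ := hM2 (ε / 2) (by positivity)
  refine ⟨|C|, fun t => (hC t).trans ?_⟩
  apply mul_le_mul (le_abs_self C) _ (by positivity) (abs_nonneg C)
  exact Real.rpow_le_rpow_of_exponent_le (by linarith [abs_nonneg t]) (by linarith)

/-- **main theorem** -/
theorem dens_main {θ a : ℝ} (hθ : 0 < θ) (ha : 0 ≤ a) (hd : Dens θ a) :
    ZO (max a ((θ - 1) / (4 * θ))) := by
  set μ0 : ℝ := max a ((θ - 1) / (4 * θ)) with hμ0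
  set S : Set ℝ := {M : ℝ | 0 ≤ M ∧ ZO M} with hS
  have hne : S.Nonempty := ⟨1, by norm_num, ZO_one⟩
  have hbdd : BddBelow S := ⟨0, fun M hM => hM.1⟩
  have hinf : ∀ ε : ℝ, 0 < ε → ∃ M : ℝ, M < sInf S + ε ∧ ZO M := by
    intro ε hε
    obtain ⟨M, hM1, hM2⟩ := exists_lt_of_csInf_lt hne (show sInf S < sInf S + ε by linarith)
    exact ⟨M, hM2, hM1.2⟩
  have hle : sInf S ≤ μ0 := by
    by_contra hcon
    rw [not_le] at hcon
    have h1 : a < sInf S := (le_max_left _ _).trans_lt hcon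
    have h2 : (θ - 1) / (4 * θ) < sInf S := (le_max_right _ _).trans_lt hcon
    have h3 : 1 - 4 * sInf S < 1 / θ := by
      rw [div_lt_iff₀ (by positivity)] at h2
      rw [lt_div_iff₀ hθ]
      linarith
    obtain ⟨M', h4, h5, C, h6⟩ := step hθ ha hd h1 h3 (ZO_of_lt hinf)
    have h7 : M' ∈ S := by
      refine ⟨h5, fun ε hε => ⟨|C|, fun t => (h6 t).trans ?_⟩⟩
      apply mul_le_mul (le_abs_self C) _ (by positivity) (abs_nonneg C)
      exact Real.rpow_le_rpow_of_exponent_le (by linarith [abs_nonneg t]) (by linarith)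
    have := csInf_le hbdd h7
    linarith
  apply ZO_of_lt
  intro ε hε
  obtain ⟨M, hM1, hM2⟩ := hinf ε hε
  exact ⟨M, by linarith, hM2⟩

end H855R2.LH
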