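import Mathlib
import Pool.Agent.H855R2.LH.Main

open Complex Filter Topology Set Finset

namespace H855R2.LH

open Pool.Agent.H388LH

/-- gaps between points with small values are at most `θ` times `2π/log T` -/
def Gap (θ a : ℝ) : Prop :=
  ∀ θ' : ℝ, θ < θ' → ∀ ε : ℝ, 0 < ε → ∃ T0 : ℝ, ∀ T : ℝ, T0 ≤ T →
    ∃ t : ℝ, T ≤ t ∧ t ≤ T + 2 * Real.pi * θ' / Real.log T ∧
      ‖riemannZeta (1 / 2 + t * I)‖ ≤ T ^ (a + ε)

theorem gap_dens {θ a : ℝ} (hθ : 0 < θ) (ha : 0 ≤ a) (hg : Gap θ a) : Dens θ a := by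
  intro θ' hθ' ε hε
  have hpi := Real.pi_pos
  set θ1 : ℝ := θ + (θ' - θ) / 3 with hθ1
  set θ2 : ℝ := θ + 2 * (θ' - θ) / 3 with hθ2
  have h01 : θ < θ1 := by rw [hθ1]; linarith
  have h12 : θ1 < θ2 := by rw [hθ1, hθ2]; linarith
  have h2' : θ2 < θ' := by rw [hθ2]; linarith
  have hθ10 : 0 < θ1 := by linarith
  have hθ20 : 0 < θ2 := by linarith
  have hθ'0 : 0 < θ' := by linarith
  obtain ⟨T1, hT1⟩ := hg θ1 h01 (ε / 2) (by positivity)
  set c : ℝ := 2 * Real.pi * (θ2 - θ1) with hc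
  have hc0 : 0 < c := by
    rw [hc]; apply mul_pos (by positivity); linarith
  refine ⟨c, hc0, fun h hh => ?_⟩
  have hlogT : Tendsto Real.log atTop atTop := Real.tendsto_log_atTop
  have ev1 : ∀ᶠ T : ℝ in atTop, 1 ≤ (h / (2 * Real.pi * θ2) - h / (2 * Real.pi * θ')) * Real.log T := by
    apply (hlogT.const_mul_atTop _).eventually_ge_atTop
    have : h / (2 * Real.pi * θ') < h / (2 * Real.pi * θ2) := by
      apply div_lt_div_of_pos_left hh (by positivity)
      apply mul_lt_mul_of_pos_left h2' (by positivity)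
    linarith
  have ev2 : ∀ᶠ T : ℝ in atTop, (2:ℝ) ^ (a + ε / 2) ≤ T ^ (ε / 2) :=
    (tendsto_rpow_atTop (by positivity)).eventually_ge_atTop _
  obtain ⟨T0, hT0⟩ := eventually_atTop.1 (ev1.and (ev2.and ((eventually_ge_atTop T1).and
    ((eventually_ge_atTop 2).and (eventually_ge_atTop h)))))
  refine ⟨T0, fun T hT => ?_⟩
  obtain ⟨e1, e2, e3, e4, e5⟩ := hT0 T hT
  have hTpos : 0 < T := by linarith
  set L : ℝ := Real.log T with hL
  have hL0 : 0 < L := Real.log_pos (by linarith)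
  set d : ℝ := 2 * Real.pi * θ2 / L with hd
  have hd0 : 0 < d := by positivity
  set δ : ℝ := 2 * Real.pi * θ1 / L with hδ
  have hdδ : d - δ = c / L := by rw [hd, hδ, hc]; ring
  have hex : ∀ k : ℕ, ∃ t : ℝ, T + k * d ≤ t ∧ t ≤ T + k * d + δ ∧
      ‖riemannZeta (1 / 2 + t * I)‖ ≤ (T + k * d) ^ (a + ε / 2) := by
    intro k
    have hk : 0 ≤ k * d := by positivity
    obtain ⟨t, ht1, ht2, ht3⟩ := hT1 (T + k * d) (by linarith)
    refine ⟨t, ht1, ht2.trans ?_, ht3⟩
    have : 2 * Real.pi * θ1 / Real.log (T + k * d) ≤ δ := by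
      rw [hδ]
      apply div_le_div_of_nonneg_left (by positivity) hL0
      exact Real.log_le_log hTpos (by linarith)
    linarith
  choose t ht1 ht2 ht3 using hex
  set K : ℕ := ⌊h / d⌋₊ with hK
  have hK1 : (K:ℝ) ≤ h / d := Nat.floor_le (by positivity)
  have hK2 : h / d < K + 1 := Nat.lt_floor_add_one _
  have hsep : ∀ k l : ℕ, k < l → c / L ≤ t l - t k := by
    intro k l hkl
    have h1 := ht1 l
    have h2 := ht2 k
    have h3 : ((k:ℝ) + 1) ≤ l := by exact_mod_cast hkl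
    have h4 : ((k:ℝ) + 1) * d ≤ l * d := mul_le_mul_of_nonneg_right h3 hd0.le
    linarith
  have hcL : 0 < c / L := by positivity
  have hinj : Set.InjOn t (Finset.range K : Set ℕ) := by
    intro k _ l _ hkl
    rcases lt_trichotomy k l with h1 | h1 | h1
    · have := hsep k l h1; rw [hkl] at this; linarith
    · exact h1
    · have := hsep l k h1; rw [hkl] at this; linarith
  refine ⟨(Finset.range K).image t, ?_, ?_, ?_⟩
  · rw [Finset.card_image_of_injOn hinj, Finset.card_range]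
    have h1 : h / d = h / (2 * Real.pi * θ2) * L := by rw [hd]; field_simp
    have h2 : h * L / (2 * Real.pi * θ') = h / (2 * Real.pi * θ') * L := by ring
    rw [h2]
    rw [h1] at hK2
    linarith
  · intro x hx
    obtain ⟨k, hk, rfl⟩ := Finset.mem_image.1 hx
    have hk' : (k:ℝ) + 1 ≤ K := by exact_mod_cast Finset.mem_range.1 hk
    have hk0 : 0 ≤ k * d := by positivity
    have h1 : ((k:ℝ) + 1) * d ≤ h := by
      calc ((k:ℝ) + 1) * d ≤ (h / d) * d := mul_le_mul_of_nonneg_right (hk'.trans hK1) hd0.le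
        _ = h := by field_simp
    refine ⟨by linarith [ht1 k], ?_, ?_⟩
    · have h2 := ht2 k
      have h3 : δ ≤ d := by linarith [hdδ, hcL]
      linarith
    · refine (ht3 k).trans ?_
      have h2 : T + k * d ≤ 2 * T := by linarith
      calc (T + k * d) ^ (a + ε / 2) ≤ (2 * T) ^ (a + ε / 2) :=
            Real.rpow_le_rpow (by linarith) h2 (by positivity)
        _ = 2 ^ (a + ε / 2) * T ^ (a + ε / 2) := Real.mul_rpow (by norm_num) hTpos.le
        _ ≤ T ^ (ε / 2) * T ^ (a + ε / 2) := mul_le_mul_of_nonneg_right e2 (by positivity)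
        _ = T ^ (a + ε) := by
            rw [← Real.rpow_add hTpos]; congr 1; ring
  · intro x hx y hy hxy
    obtain ⟨k, hk, rfl⟩ := Finset.mem_image.1 hx
    obtain ⟨l, hl, rfl⟩ := Finset.mem_image.1 hy
    rcases lt_trichotomy k l with h1 | h1 | h1
    · have := hsep k l h1
      rw [abs_sub_comm]
      exact this.trans (le_abs_self _)
    · rw [h1] at hxy; exact absurd rfl hxy
    · have := hsep l k h1
      exact this.trans (le_abs_self _)

theorem ZO_large {β : ℝ} (hβ : 0 ≤ β) (hZ : ZO β) (ε : ℝ) (hε : 0 < ε) :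
    ∃ T0 : ℝ, ∀ T : ℝ, T0 ≤ T → ‖riemannZeta (1 / 2 + T * I)‖ ≤ T ^ (β + ε) := by
  obtain ⟨C, hC⟩ := hZ (ε / 2) (by positivity)
  have ev : ∀ᶠ T : ℝ in atTop, |C| * 2 ^ (β + ε / 2) ≤ T ^ (ε / 2) :=
    (tendsto_rpow_atTop (by positivity)).eventually_ge_atTop _
  obtain ⟨T0, hT0⟩ := eventually_atTop.1 (ev.and (eventually_ge_atTop 1))
  refine ⟨T0, fun T hT => ?_⟩
  obtain ⟨e1, e2⟩ := hT0 T hT
  have hT0 : 0 < T := by linarith
  have h1 := hC T
  rw [abs_of_pos hT0] at h1
  calc ‖riemannZeta (1 / 2 + T * I)‖ ≤ C * (1 + T) ^ (β + ε / 2) := h1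
    _ ≤ |C| * (2 * T) ^ (β + ε / 2) := by
        apply mul_le_mul (le_abs_self C) _ (by positivity) (abs_nonneg C)
        apply Real.rpow_le_rpow (by positivity) (by linarith) (by positivity)
    _ = |C| * 2 ^ (β + ε / 2) * T ^ (β + ε / 2) := by
        rw [Real.mul_rpow (by norm_num) hT0.le]; ring
    _ ≤ T ^ (ε / 2) * T ^ (β + ε / 2) := mul_le_mul_of_nonneg_right e1 (by positivity)
    _ = T ^ (β + ε) := by rw [← Real.rpow_add hT0]; congr 1; ring

theorem ZO_mono {β γ : ℝ} (h : β ≤ γ) (hZ : ZO β) : ZO γ := by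
  intro ε hε
  obtain ⟨C, hC⟩ := hZ ε hε
  refine ⟨|C|, fun t => (hC t).trans ?_⟩
  apply mul_le_mul (le_abs_self C) _ (by positivity) (abs_nonneg C)
  exact Real.rpow_le_rpow_of_exponent_le (by linarith [abs_nonneg t]) (by linarith)

/-- sequences -/
theorem seq_gap {θ a : ℝ} (hθ : 0 < θ) (ha : 0 ≤ a) (u : ℕ → ℝ) (hu : Tendsto u atTop atTop)
    (hgap : ∀ θ' : ℝ, θ < θ' → ∀ᶠ n : ℕ in atTop, u (n + 1) - u n ≤ 2 * Real.pi * θ' / Real.log (u n))
    (hval : ∀ ε : ℝ, 0 < ε → ∃ C : ℝ, ∀ᶠ n : ℕ in atTop,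
      ‖riemannZeta (1 / 2 + (u n : ℂ) * I)‖ ≤ C * (u n) ^ (a + ε)) : Gap θ a := by
  classical
  intro θ' hθ' ε hε
  have hpi := Real.pi_pos
  set θ1 : ℝ := (θ + θ') / 2 with hθ1
  have h01 : θ < θ1 := by rw [hθ1]; linarith
  have h1' : θ1 < θ' := by rw [hθ1]; linarith
  have hθ10 : 0 < θ1 := by linarith
  obtain ⟨C, hC⟩ := hval (ε / 2) (by positivity)
  -- threshold for u
  have evu : ∀ᶠ n : ℕ in atTop, Real.exp (2 * Real.pi * θ1 + 1) ≤ u n := hu.eventually_ge_atTop _
  obtain ⟨n0, hn0⟩ := eventually_atTop.1 ((hgap θ1 h01).and (hC.and evu))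
  have ev1 : ∀ᶠ T : ℝ in atTop, |C| * 2 ^ (a + ε / 2) ≤ T ^ (ε / 2) :=
    (tendsto_rpow_atTop (by positivity)).eventually_ge_atTop _
  have ev2 : ∀ᶠ T : ℝ in atTop, Real.log 2 ≤ (1 - θ1 / θ') * Real.log T := by
    apply (Real.tendsto_log_atTop.const_mul_atTop _).eventually_ge_atTop
    have : θ1 / θ' < 1 := by rw [div_lt_one (by linarith)]; exact h1'
    linarith
  obtain ⟨T0, hT0⟩ := eventually_atTop.1 (ev1.and (ev2.and ((eventually_ge_atTop 2).and
    (eventually_gt_atTop (u n0)))))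
  refine ⟨T0, fun T hT => ?_⟩
  obtain ⟨e1, e2, e3, e4⟩ := hT0 T hT
  have hTpos : 0 < T := by linarith
  -- first index with u ≥ T after n0
  have hexist : ∃ m : ℕ, T ≤ u (n0 + m) := by
    have h1 : Tendsto (fun m : ℕ => u (n0 + m)) atTop atTop := by
      have := (tendsto_add_atTop_iff_nat n0).2 hu
      refine this.congr (fun m => ?_)
      rw [Nat.add_comm]
    exact (h1.eventually_ge_atTop T).exists
  set m := Nat.find hexist with hm
  have hm1 : T ≤ u (n0 + m) := Nat.find_spec hexist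
  have hm0 : m ≠ 0 := by
    intro h
    rw [h, Nat.add_zero] at hm1
    linarith
  obtain ⟨k, hk⟩ : ∃ k, m = k + 1 := ⟨m - 1, by omega⟩
  have hk1 : u (n0 + k) < T := by
    have := Nat.find_min hexist (m := k) (by omega)
    exact not_le.1 this
  obtain ⟨g1, g2, g3⟩ := hn0 (n0 + k) (by omega)
  obtain ⟨_, g2', _⟩ := hn0 (n0 + m) (by omega)
  have hidx : n0 + k + 1 = n0 + m := by omega
  rw [hidx] at g1
  set v := u (n0 + k) with hv
  set w := u (n0 + m) with hw
  have hv0 : 0 < v := lt_of_lt_of_le (Real.exp_pos _) g3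
  have hlogv : 2 * Real.pi * θ1 + 1 ≤ Real.log v := by
    rw [Real.le_log_iff_exp_le hv0]; exact g3
  have hlogv0 : 0 < Real.log v := by
    have : 0 < 2 * Real.pi * θ1 := by positivity
    linarith
  have hq : 2 * Real.pi * θ1 / Real.log v ≤ 1 := by
    rw [div_le_one hlogv0]; linarith
  have hvT : T - 1 ≤ v := by linarith
  have hlog2 : Real.log T - Real.log 2 ≤ Real.log v := by
    rw [← Real.log_div hTpos.ne' (by norm_num)]
    apply Real.log_le_log (by positivity)
    linarith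
  have hlogT0 : 0 < Real.log T := Real.log_pos (by linarith)
  have hlast : 2 * Real.pi * θ1 / Real.log v ≤ 2 * Real.pi * θ' / Real.log T := by
    rw [div_le_div_iff₀ hlogv0 hlogT0]
    have hθ'0 : 0 < θ' := by linarith
    have h3 : θ1 * Real.log T ≤ θ' * Real.log v := by
      have h4 : θ1 / θ' * Real.log T ≤ Real.log v := by linarith
      calc θ1 * Real.log T = θ' * (θ1 / θ' * Real.log T) := by field_simp
        _ ≤ θ' * Real.log v := mul_le_mul_of_nonneg_left h4 hθ'0.le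
    calc 2 * Real.pi * θ1 * Real.log T = 2 * Real.pi * (θ1 * Real.log T) := by ring
      _ ≤ 2 * Real.pi * (θ' * Real.log v) := mul_le_mul_of_nonneg_left h3 (by positivity)
      _ = _ := by ring
  refine ⟨w, hm1, by linarith, g2'.trans ?_⟩
  have hw2 : w ≤ 2 * T := by linarith
  calc C * w ^ (a + ε / 2) ≤ |C| * (2 * T) ^ (a + ε / 2) := by
        apply mul_le_mul (le_abs_self C) _ (by
          have : 0 < w := by linarith
          positivity) (abs_nonneg C)
        apply Real.rpow_le_rpow (by linarith) hw2 (by positivity)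
    _ = |C| * 2 ^ (a + ε / 2) * T ^ (a + ε / 2) := by
        rw [Real.mul_rpow (by norm_num) hTpos.le]; ring
    _ ≤ T ^ (ε / 2) * T ^ (a + ε / 2) := mul_le_mul_of_nonneg_right e1 (by positivity)
    _ = T ^ (a + ε) := by rw [← Real.rpow_add hTpos]; congr 1; ring

/-- positive proportion version -/
theorem meas_dens {a ρ : ℝ} (hρ : 0 < ρ)
    (hm : ∀ ε : ℝ, 0 < ε → ∀ h : ℝ, 0 < h → ∃ T0 : ℝ, ∀ T : ℝ, T0 ≤ T →
      ENNReal.ofReal (ρ * h) ≤ MeasureTheory.volume
        {t : ℝ | T ≤ t ∧ t ≤ T + h ∧ ‖riemannZeta (1 / 2 + t * I)‖ ≤ T ^ (a + ε)})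
    {θ : ℝ} (hθ : 0 < θ) : Dens θ a := by
  classical
  intro θ' hθ' ε hε
  have hpi := Real.pi_pos
  have hθ'0 : 0 < θ' := by linarith
  set c : ℝ := Real.pi * θ' * ρ with hc
  have hc0 : 0 < c := by positivity
  refine ⟨c, hc0, fun h hh => ?_⟩
  obtain ⟨T0, hT0⟩ := hm ε hε h hh
  refine ⟨max T0 2, fun T hT => ?_⟩
  have hTT0 : T0 ≤ T := (le_max_left _ _).trans hT
  have hT2 : 2 ≤ T := (le_max_right _ _).trans hT
  set E : Set ℝ := {t : ℝ | T ≤ t ∧ t ≤ T + h ∧ ‖riemannZeta (1 / 2 + t * I)‖ ≤ T ^ (a + ε)} with hE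
  have hvol := hT0 T hTT0
  set L : ℝ := Real.log T with hL
  have hL0 : 0 < L := Real.log_pos (by linarith)
  set δ : ℝ := c / L with hδ
  have hδ0 : 0 < δ := by positivity
  set J : ℕ → Set ℝ := fun k => Set.Ico (T + k * δ) (T + (k + 1) * δ) with hJ
  set S : Finset ℕ := (Finset.range (⌊h / δ⌋₊ + 1)).filter (fun k => (E ∩ J k).Nonempty) with hS
  have hcover : E ⊆ ⋃ k ∈ S, J k := by
    intro t ht
    have h1 : 0 ≤ (t - T) / δ := div_nonneg (by linarith [ht.1]) hδ0.le
    set k : ℕ := ⌊(t - T) / δ⌋₊ with hk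
    have h2 : (k:ℝ) ≤ (t - T) / δ := Nat.floor_le h1
    have h3 : (t - T) / δ < k + 1 := Nat.lt_floor_add_one _
    rw [le_div_iff₀ hδ0] at h2
    rw [div_lt_iff₀ hδ0] at h3
    have htJ : t ∈ J k := ⟨by linarith, by linarith⟩
    have hkS : k ∈ S := by
      rw [hS, Finset.mem_filter, Finset.mem_range]
      refine ⟨?_, t, ht, htJ⟩
      have : k ≤ ⌊h / δ⌋₊ := by
        apply Nat.floor_le_floor
        apply div_le_div_of_nonneg_right _ hδ0.le
        linarith [ht.2.1]
      omega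
    exact Set.mem_biUnion hkS htJ
  have hvol2 : MeasureTheory.volume E ≤ ENNReal.ofReal (S.card * δ) := by
    calc MeasureTheory.volume E ≤ MeasureTheory.volume (⋃ k ∈ S, J k) := MeasureTheory.measure_mono hcover
      _ ≤ ∑ k ∈ S, MeasureTheory.volume (J k) := MeasureTheory.measure_biUnion_finset_le S J
      _ = ∑ k ∈ S, ENNReal.ofReal δ := by
          apply Finset.sum_congr rfl
          intro k _
          rw [hJ]
          simp only
          rw [Real.volume_Ico]
          congr 1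
          ring
      _ = ENNReal.ofReal (S.card * δ) := by
          rw [Finset.sum_const, nsmul_eq_mul, ENNReal.ofReal_mul (Nat.cast_nonneg _),
            ENNReal.ofReal_natCast]
  have hcard : ρ * h ≤ S.card * δ := by
    have := hvol.trans hvol2
    rwa [ENNReal.ofReal_le_ofReal_iff (by positivity)] at this
  -- choose a parity class
  obtain ⟨b, hb⟩ : ∃ b : ℕ, (S.card : ℝ) ≤ 2 * ((S.filter (fun k => k % 2 = b)).card : ℝ) := by
    have h1 : (S.filter (fun k => k % 2 = 0)).card + (S.filter (fun k => ¬ k % 2 = 0)).card = S.card :=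
      Finset.card_filter_add_card_filter_not _
    have h2 : S.filter (fun k => ¬ k % 2 = 0) = S.filter (fun k => k % 2 = 1) := by
      apply Finset.filter_congr
      intro k _
      omega
    rw [h2] at h1
    rcases le_total (S.filter (fun k => k % 2 = 0)).card (S.filter (fun k => k % 2 = 1)).card with h3 | h3
    · refine ⟨1, ?_⟩
      have : S.card ≤ 2 * (S.filter (fun k => k % 2 = 1)).card := by omega
      exact_mod_cast this
    · refine ⟨0, ?_⟩
      have : S.card ≤ 2 * (S.filter (fun k => k % 2 = 0)).card := by omega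
      exact_mod_cast this
  set S' : Finset ℕ := S.filter (fun k => k % 2 = b) with hS'
  have hne : ∀ k : ℕ, ∃ t : ℝ, k ∈ S' → t ∈ E ∩ J k := by
    intro k
    by_cases hk : k ∈ S'
    · have h1 := (Finset.mem_filter.1 (Finset.mem_filter.1 hk).1).2
      obtain ⟨t, ht⟩ := h1
      exact ⟨t, fun _ => ht⟩
    · exact ⟨0, fun h => absurd h hk⟩
  choose t ht using hne
  have hsep : ∀ k ∈ S', ∀ l ∈ S', k < l → c / L ≤ t l - t k := by
    intro k hk l hl hkl
    have h1 := (ht k hk).2.2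
    have h2 := (ht l hl).2.1
    have h3 : k + 2 ≤ l := by
      have a1 := (Finset.mem_filter.1 hk).2
      have a2 := (Finset.mem_filter.1 hl).2
      omega
    have h4 : (k:ℝ) + 2 ≤ l := by exact_mod_cast h3
    have h5 : ((k:ℝ) + 2) * δ ≤ l * δ := mul_le_mul_of_nonneg_right h4 hδ0.le
    have h6 : c / L = δ := rfl
    rw [h6]
    linarith
  have hcL : 0 < c / L := by positivity
  have hinj : Set.InjOn t (S' : Set ℕ) := by
    intro k hk l hl hkl
    rcases lt_trichotomy k l with h1 | h1 | h1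
    · have := hsep k hk l hl h1; rw [hkl] at this; linarith
    · exact h1
    · have := hsep l hl k hk h1; rw [hkl] at this; linarith
  refine ⟨S'.image t, ?_, ?_, ?_⟩
  · rw [Finset.card_image_of_injOn hinj]
    have h1 : h * L / (2 * Real.pi * θ') = (ρ * h / δ) / 2 := by
      rw [hδ, hc]; field_simp
    rw [h1]
    have h2 : ρ * h / δ ≤ S.card := by
      rw [div_le_iff₀ hδ0]; exact hcard
    linarith
  · intro x hx
    obtain ⟨k, hk, rfl⟩ := Finset.mem_image.1 hx
    exact (ht k hk).1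
  · intro x hx y hy hxy
    obtain ⟨k, hk, rfl⟩ := Finset.mem_image.1 hx
    obtain ⟨l, hl, rfl⟩ := Finset.mem_image.1 hy
    rcases lt_trichotomy k l with h1 | h1 | h1
    · have := hsep k hk l hl h1
      rw [abs_sub_comm]
      exact this.trans (le_abs_self _)
    · rw [h1] at hxy; exact absurd rfl hxy
    · have := hsep l hl k hk h1
      exact this.trans (le_abs_self _)

end H855R2.LH
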